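import Pool.Agent.Helper91.BOX.Cnt

/-! LITERAL BOUNDED BOXES, part 3: THEOREM BOX. Every window of a member of a homogeneous class has a label `kappa_c`
which is the partition into the values of a bounded variable, with a frame whose polynomials are the same as the
values of the variable. -/

set_option autoImplicit false

namespace Pool.Agent.Helper91.BOX

open Finset Filter Topology Pool.Agent.Helper69.RK Pool.Agent.Helper31.EC Pool.Agent.Helper31.EC.Sp
open Pool.Agent.Helper40.EL Pool.Agent.Helper3.LF Pool.Agent.Helper84.MT Pool.Agent.Helper36.AM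
open Pool.Agent.Helper31.EC.QS
open Pool.Agent.Helper5.HB (cq)
open Pool.Agent.Helper33.LIT

noncomputable section

/-! ### labels with the same information -/

/-- a literal label with the same information as a label `kappa_c` is a label `kappa_c` -/
theorem kap_congr {S : Sp} {M : ℕ} {E : ℕ → ℕ} {ι : Type} {s : MSys S M E ι} {c : ℝ}
    {Z Z' : ∀ k, Setoid (S.F k).Ω} (h1 : PLe (fun k => fc (Z' k)) (fun k => fc (Z k)))
    (h2 : PLe (fun k => fc (Z k)) (fun k => fc (Z' k))) (hZ : s.IsKap c (Lab.ofZ Z)) : s.IsKap c (Lab.ofZ Z') := by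
  have hDM : (Lab.ofZ Z').DMf (s.cnd c) :=
    (Lab.ofZ_DMf Z').mpr fun i => h1.trans ((Lab.ofZ_DMf Z).mp hZ.1 i)
  refine ⟨hDM, fun l' hl' => (hZ.2 l' hl').trans ?_⟩
  have u2 := hDM.ub (i := none) (pcd_Bd s.Q)
  have u1 := hZ.1.ub (i := none) (pcd_Bd s.Q)
  have h2' : Nul S (fun k => h (fc (Z k)) (fc (Z' k))) := h2
  have u3 : UB (fun k => h (fc (Z k)) (fc (Z' k)) / (S.F k).n) := UB_of_tendsto h2'
  have e1 : ul (fun k => ((Lab.ofZ Z') k).info / (S.F k).n + h (fc (Z k)) (fc (Z' k)) / (S.F k).n) =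
      (Lab.ofZ Z').info := by
    rw [ul_add u2 u3]
    have : ul (fun k => h (fc (Z k)) (fc (Z' k)) / (S.F k).n) = 0 := ul_eq h2'
    rw [this, add_zero]
    rfl
  rw [← e1]
  apply ul_mono u1 (u2.add u3)
  refine Eventually.of_forall fun k => ?_
  rw [← add_div]
  apply div_le_div_of_nonneg_right _ (S.F k).pos.le
  rw [ofZ_info, ofZ_info]
  have e2 : H (fc (Z k)) ≤ H (fc (Z' k) ⊔ fc (Z k)) := H_mono le_sup_right
  have e3 : h (fc (Z k)) (fc (Z' k)) = H (fc (Z k) ⊔ fc (Z' k)) - H (fc (Z' k)) := rfl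
  rw [e3, sup_comm (fc (Z k))]
  linarith

theorem PLe_ev {S : Sp} {A B : Part S} (hh : ∀ᶠ k in UF, A k ≤ B k) : PLe A B := by
  have h1 : Nul S (fun k => h (A k) (B k)) :=
    (Nul_zero S).of_le (Eventually.of_forall fun k => h_nonneg _ _) (by
      filter_upwards [hh] with k hk
      rw [h_zero hk])
  exact h1

/-! ### numbers -/

/-- the numbers of a homogeneous class (windows with `w_last c < 1`) -/
theorem hom_num_s {M : ℕ} {Cl : MCl (M + 1)} {g r : ℕ} {w : Fin (M + 1) → ℝ} {ρ : ℝ}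
    {TT : ∀ S : Sp, MSys S (M + 1) (lin g) (Fin r) → Prop} (hT : Hom M Cl g r w ρ TT) {S : Sp}
    {s : MSys S (M + 1) (lin g) (Fin r)} (hs : TT S s) {c b a : ℝ} (h0 : 0 ≤ c) (_hlt : w (Fin.last M) * c < 1)
    (h1 : w (Fin.last M) * c ≤ b) (h2 : b ≤ a) (h3 : a ≤ 1) {Z : ∀ k, Setoid (S.F k).Ω} (hZ : s.IsKap c (Lab.ofZ Z)) :
    Tendsto (fun k => h (cel2 s.Q (Fin.last M) a b k) (fc (Z k)) / (S.F k).n) UF
      (𝓝 (∑ j : Fin M, (a - w j.castSucc * c) + (1 - ρ) * (b - w (Fin.last M) * c))) :=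
  hom_num hT hs h0 _hlt h1 h2 h3 hZ

variable {S : Sp} {M : ℕ}

theorem cel2_same (Q : S.VV M) (z : Fin M) (a : ℝ) (k : ℕ) : cel2 Q z a a k = fc (Setoid.ker (Q.cellv a k)) := by
  have h1 : Setoid.ker (Q.cellv a k) ⊓ Setoid.ker (fun ω (j : {j : Fin M // j ≠ z}) => Q.cellv a k ω j.1) =
      Setoid.ker (Q.cellv a k) := by
    apply inf_eq_left.mpr
    intro ω ω' h
    have h2 : Q.cellv a k ω = Q.cellv a k ω' := h
    show (fun j : {j : Fin M // j ≠ z} => Q.cellv a k ω j.1) = fun j : {j : Fin M // j ≠ z} => Q.cellv a k ω' j.1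
    rw [h2]
  show fc (Setoid.ker (Q.cellv a k) ⊓ Setoid.ker (fun ω (j : {j : Fin M // j ≠ z}) => Q.cellv a k ω j.1)) = _
  rw [h1]

theorem cel2_self (Q : S.VV M) (z : Fin M) (k : ℕ) : cel2 Q z 1 1 k = pcd Q k := by
  have h1 : Setoid.ker (Q.cellv 1 k) ⊓ Setoid.ker (fun ω (j : {j : Fin M // j ≠ z}) => Q.cellv 1 k ω j.1) =
      Setoid.ker (Q.cellv 1 k) := by
    apply inf_eq_left.mpr
    intro ω ω' h
    have h2 : Q.cellv 1 k ω = Q.cellv 1 k ω' := h
    show (fun j : {j : Fin M // j ≠ z} => Q.cellv 1 k ω j.1) = fun j : {j : Fin M // j ≠ z} => Q.cellv 1 k ω' j.1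
    rw [h2]
  show fc (Setoid.ker (Q.cellv 1 k) ⊓ Setoid.ker (fun ω (j : {j : Fin M // j ≠ z}) => Q.cellv 1 k ω j.1)) =
    fc (Setoid.ker (Q.cellv 1 k))
  rw [h1]

theorem H_cel2L (Q : S.VV M) (z : Fin M) (a b v : ℝ)
    (h : Tendsto (fun k => H (cel2 Q z a b k) / (S.F k).n) UF (𝓝 v)) : H (cel2L Q z a b) = v := by
  rw [← cl_cel2I]
  have h1 : (fun k => H (cel2 Q z a b k) / (S.F k).n) = S.rt (cel2I Q z a b).1 S.tr := by
    funext k
    rw [cel2_rpI, H_rpI]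
  rw [h1] at h
  exact ul_eq h

/-- `h(Q_1 | V)` for a bounded variable `V` -/
theorem h_pcd_tendsto (Q : S.VV M) {α : ℕ → Type} {V : ∀ k, (S.F k).Ω → α k} (hV : Bdd V) :
    Tendsto (fun k => h (pcd Q k) (fc (Setoid.ker (V k))) / (S.F k).n) UF (𝓝 (h (Q.dg 1) (io V))) := by
  have h1 : (fun k => h (pcd Q k) (fc (Setoid.ker (V k))) / (S.F k).n) =
      S.rt (Q.bdd 1).toInf.1 hV.toInf.1 := by
    funext k
    exact h_rpI (Q.bdd 1).toInf hV.toInf k
  have h2 : h (Q.dg 1) (io V) = ul (S.rt (Q.bdd 1).toInf.1 hV.toInf.1) := by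
    unfold VV.dg
    rw [io_eq (Q.bdd 1), io_eq hV, h_cl]
  rw [h1, h2]
  exact ul_tendsto (UB_rt _ _)

/-- THEOREM BOX for a general frame: if the volume count of the rounded coefficients is at most the number of the
window, the cells of the coefficients are a label `kappa_c` -/
theorem box_of_count {E : ℕ → ℕ} {ι : Type} {s : MSys S M E ι} {c : ℝ} {Z : ∀ k, Setoid (S.F k).Ω}
    (hZ : s.IsKap c (Lab.ofZ Z)) {α : ℕ → Type} {V : ∀ k, (S.F k).Ω → α k} (hV : Bdd V)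
    (hle : ∀ᶠ k in UF, (fc (Setoid.ker (V k)) : FL (S.F k)) ≤ fc (Z k)) {v : ℝ}
    (hv : Tendsto (fun k => h (pcd s.Q k) (fc (Z k)) / (S.F k).n) UF (𝓝 v)) (hc : h (s.Q.dg 1) (io V) ≤ v) :
    s.IsKap c (Lab.ofZ fun k => Setoid.ker (V k)) ∧ h (s.Q.dg 1) (io V) = v := by
  have h1 := h_pcd_tendsto s.Q hV
  have h2 : Tendsto (fun k => h (fc (Z k)) (pcd s.Q k) / (S.F k).n) UF (𝓝 0) := kap_pt hZ
  have h3 := (h1.add h2).sub hv
  have h4 : ∀ᶠ k in UF, h (fc (Z k)) (fc (Setoid.ker (V k))) / (S.F k).n ≤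
      h (pcd s.Q k) (fc (Setoid.ker (V k))) / (S.F k).n + h (fc (Z k)) (pcd s.Q k) / (S.F k).n -
        h (pcd s.Q k) (fc (Z k)) / (S.F k).n := by
    filter_upwards [hle] with k hk
    rw [← add_div, ← sub_div]
    apply div_le_div_of_nonneg_right _ (S.F k).pos.le
    have e1 := h_chain (fc (Z k)) (pcd s.Q k) (fc (Setoid.ker (V k)))
    have e2 := h_chain (pcd s.Q k) (fc (Z k)) (fc (Setoid.ker (V k)))
    rw [sup_eq_left.mpr hk] at e1
    rw [sup_comm] at e2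
    have e3 : h (fc (Z k)) (pcd s.Q k ⊔ fc (Setoid.ker (V k))) ≤ h (fc (Z k)) (pcd s.Q k) := h_anti le_sup_left
    linarith
  have h0 : ∀ k, 0 ≤ h (fc (Z k)) (fc (Setoid.ker (V k))) / (S.F k).n := fun k =>
    div_nonneg (h_nonneg _ _) (S.F k).pos.le
  have h5 : 0 ≤ h (s.Q.dg 1) (io V) + 0 - v :=
    ge_of_tendsto h3 (h4.mono fun k hk => (h0 k).trans hk)
  have h6 : h (s.Q.dg 1) (io V) + 0 - v = 0 := le_antisymm (by linarith) h5
  rw [h6] at h3
  have h7 : PLe (fun k => fc (Z k)) (fun k => fc (Setoid.ker (V k))) :=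
    tendsto_of_tendsto_of_tendsto_of_le_of_le' tendsto_const_nhds h3 (Eventually.of_forall h0) h4
  exact ⟨kap_congr (PLe_ev hle) h7 hZ, by linarith⟩

/-! ### homogeneous classes -/

variable {Cl : MCl (M + 1)} {g r : ℕ} {w : Fin (M + 1) → ℝ} {ρ : ℝ}
    {TT : ∀ S : Sp, MSys S (M + 1) (lin g) (Fin r) → Prop}

theorem hom_one_le (hT : Hom M Cl g r w ρ TT) (i : Fin (M + 1)) : 1 ≤ w i := by
  rw [← hT.one]
  exact hT.mono (Fin.zero_le i)

theorem hom_le_last (hT : Hom M Cl g r w ρ TT) (i : Fin (M + 1)) : w i ≤ w (Fin.last M) := hT.mono (Fin.le_last i)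

/-- the number of the window `c`: `h(Q_1 | kappa_c)` -/
def bnum (w : Fin (M + 1) → ℝ) (ρ c : ℝ) : ℝ :=
  ∑ j : Fin M, (1 - w j.castSucc * c) + (1 - ρ) * (1 - w (Fin.last M) * c)

/-- the frame at the window `0`: the point itself -/
def frm0 (Q : S.VV M) (La : Fin M → ℝ) (hLa : ∀ i, La i = 0) : Frm Q (Lab.ofZ fun _ => ⊤) La where
  X := Q
  P := fun _ _ _ => 0
  tri := fun k ω j i hi => by
    rw [MvPolynomial.vars_0] at hi
    exact absurd hi (Finset.notMem_empty i)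
  red := fun k ω j a ha _ => by
    rw [MvPolynomial.support_zero] at ha
    exact absurd ha (Finset.notMem_empty a)
  fn := Eventually.of_forall fun _ _ _ _ _ _ _ => rfl
  bd := ⟨fun _ => 0, S.Sub_const le_rfl, Eventually.of_forall fun k ω _ j a => by
    rw [MvPolynomial.coeff_zero, abs_zero]⟩
  pt := ⟨fun _ => 0, S.Sub_const le_rfl, Eventually.of_forall fun k ω _ j => by
    have h1 : (((Lab.ofZ fun _ => ⊤).pj.vv Q).v k ω j - (MvPolynomial.eval (fun i => S.dl (La i) k * Q.v k ω i) 0 +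
        S.dl (La j) k * Q.v k ω j)) = 0 := by
      have h2 : ((Lab.ofZ fun _ => ⊤).pj.vv Q).v k ω j = Q.v k ω j := rfl
      rw [h2, map_zero, hLa, S.dl_zero]
      ring
    have h3 : |(((Lab.ofZ fun _ => ⊤).pj.vv Q).v k ω j -
        (MvPolynomial.eval (fun i => S.dl (La i) k * Q.v k ω i) 0 + S.dl (La j) k * Q.v k ω j))| ≤ 0 * S.dl 1 k := by
      rw [h1, abs_zero, zero_mul]
    exact h3⟩

/-- THE BOXES of a member of a homogeneous class: a bounded variable `V` whose partition is a label `kappa_c`, with a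
frame whose polynomials are the same as the values of `V` (literally), with zooms in the class -/
theorem exists_box (hT : Hom M Cl g r w ρ TT) {s : MSys S (M + 1) (lin g) (Fin r)} (hs : TT S s) {c : ℝ}
    (h0 : 0 ≤ c) (h1 : w (Fin.last M) * c < 1) :
    ∃ (α : ℕ → Type) (V : ∀ k, (S.F k).Ω → α k)
      (f : Frm s.Q (Lab.ofZ fun k => Setoid.ker (V k)) (fun j => w j * c)),
      Bdd V ∧ s.IsKap c (Lab.ofZ fun k => Setoid.ker (V k)) ∧
      (∀ (k : ℕ) (ω ω' : (S.F k).Ω), fP f k ω = fP f k ω' ↔ V k ω = V k ω') ∧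
      (∃ D : ℕ, ∀ (k : ℕ) (ω : (S.F k).Ω) (j : Fin (M + 1)), (fP f k ω j).totalDegree ≤ D) ∧
      h (s.Q.dg 1) (io V) = bnum w ρ c ∧
      (0 < c → ∀ (e : ℝ) (he : 0 < e), w (Fin.last M) * c + e ≤ 1 →
        ∃ t : MSys ((Lab.ofZ fun k => Setoid.ker (V k)).ovr e he) (M + 1) (lin g) (Fin r),
          Gzf s (Lab.ofZ fun k => Setoid.ker (V k)) f c e he t ∧ TT _ t) := by
  have hHQ : H (s.Q.dg 1) = M + (1 - ρ) := by
    rw [← cel2L_self s.Q (Fin.last M) 1]
    apply H_cel2L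
    have h2 := hom_num0 hT hs (b := 1) (a := 1) zero_le_one le_rfl le_rfl
    rwa [mul_one, mul_one] at h2
  rcases h0.eq_or_lt with hc | hc
  · subst hc
    have hV : Bdd (S := S) (α := fun _ => Unit) (fun _ _ => ()) :=
      VB.mono VB_tr (Eventually.of_forall fun k ω ω' _ _ _ _ => rfl)
    have e0 : (fun k => Setoid.ker (fun _ : (S.F k).Ω => ())) = fun _ => ⊤ := by
      funext k
      ext ω ω'
      exact ⟨fun _ => trivial, fun _ => rfl⟩
    refine ⟨fun _ => Unit, fun _ _ => (), ?_⟩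
    rw [e0]
    refine ⟨frm0 s.Q _ (fun i => mul_zero _), hV, kap_top (hT.con S s hs), fun k ω ω' => ⟨fun _ => rfl, fun _ => rfl⟩,
      ⟨0, fun k ω j => ?_⟩, ?_, fun h => absurd h (lt_irrefl _)⟩
    · have e1 : fP (frm0 s.Q (fun j => w j * 0) (fun i => mul_zero _)) k ω j = 0 := rfl
      rw [e1, MvPolynomial.totalDegree_zero]
    · have e1 : io (S := S) (α := fun _ => Unit) (fun _ _ => ()) = ⊥ := by
        apply le_antisymm _ _root_.bot_le
        rw [io_eq hV, ← cl_bot, cl_le]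
        apply Inf.le_of_le
        exact Eventually.of_forall fun k ω ω' _ => rfl
      rw [e1, h_bot, hHQ]
      unfold bnum
      simp only [mul_zero, sub_zero, Finset.sum_const, Finset.card_univ, Fintype.card_fin, nsmul_eq_mul, mul_one]
  · obtain ⟨Z, f, hZ, hz⟩ := hom_lit hT hs hc h1
    have hL : ∀ i, c ≤ w i * c := fun i => by
      have := mul_le_mul_of_nonneg_right (hom_one_le hT i) hc.le
      rwa [one_mul] at this
    have hL0 : ∀ i, 0 ≤ w i * c := fun i => hc.le.trans (hL i)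
    have hL1 : ∀ i, w i * c ≤ 1 := fun i =>
      (mul_le_mul_of_nonneg_right (hom_le_last hT i) hc.le).trans h1.le
    have hD' : ∀ i, w i * c ≤ c * ((⌈w (Fin.last M)⌉₊ : ℕ) + 1) := fun i => by
      have e1 := Nat.le_ceil (w (Fin.last M))
      have e2 := hom_le_last hT i
      rw [mul_comm]
      apply mul_le_mul_of_nonneg_left _ hc.le
      linarith
    have hD := deg_of_red hc hL hD' f
    have hv := hom_num_s hT hs h0 h1 h1.le le_rfl le_rfl hZ
    have hv' : Tendsto (fun k => h (pcd s.Q k) (fc (Z k)) / (S.F k).n) UF (𝓝 (bnum w ρ c)) :=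
      hv.congr fun k => by rw [cel2_self]
    have hcel : H (cel2L s.Q (Fin.last M) 1 (w (Fin.last M) * c)) = M + (1 - ρ) * (w (Fin.last M) * c) := by
      apply H_cel2L
      have h2 := hom_num0 hT hs (b := w (Fin.last M) * c) (a := 1) (hL0 _) (hL1 _) le_rfl
      rwa [mul_one] at h2
    have hcnt := h_box_last f ⌈w (Fin.last M)⌉₊ hL0 hD hL1
    rw [hHQ, hcel] at hcnt
    have hcnt' : h (s.Q.dg 1) (io (α := fun _ => Fin (nc (M + 1) ⌈w (Fin.last M)⌉₊) → ℤ)
        (bx f ⌈w (Fin.last M)⌉₊)) ≤ bnum w ρ c := by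
      refine hcnt.trans (le_of_eq ?_)
      unfold bnum
      ring
    have hk := box_of_count hZ (bx_bdd f ⌈w (Fin.last M)⌉₊) (bx_le f _) hv' hcnt'
    refine ⟨_, bx f ⌈w (Fin.last M)⌉₊, rfr f _ hL0 hD, bx_bdd _ _, hk.1, fun k ω ω' => ⟨fun h => ?_, fun h => ?_⟩,
      ⟨⌈w (Fin.last M)⌉₊, fun k ω j => ?_⟩, hk.2, fun _ e he h2 => ?_⟩
    · exact pof_inj (S.dl_pos 1 k).ne' h
    · show pof (S.dl 1 k) (bx f _ k ω) = pof (S.dl 1 k) (bx f _ k ω')
      rw [h]
    · exact pof_deg _ _ _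
    · exact hT.zoom S s hs c hc h1 _ (rfr f _ hL0 hD) hk.1 e he h2

/-- the size of the box -/
theorem bnum_eq (w : Fin (M + 1) → ℝ) (ρ c : ℝ) :
    bnum w ρ c = (M + (1 - ρ)) - (∑ j : Fin M, w j.castSucc + (1 - ρ) * w (Fin.last M)) * c := by
  unfold bnum
  rw [Finset.sum_sub_distrib, ← Finset.sum_mul]
  simp only [Finset.sum_const, Finset.card_univ, Fintype.card_fin, nsmul_eq_mul, mul_one]
  ring

/-- `kappa_0`: the point -/
theorem H_pt (hT : Hom M Cl g r w ρ TT) {s : MSys S (M + 1) (lin g) (Fin r)} (hs : TT S s) :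
    H (s.Q.dg 1) = M + (1 - ρ) := by
  rw [← cel2L_self s.Q (Fin.last M) 1]
  apply H_cel2L
  have h2 := hom_num0 hT hs (b := 1) (a := 1) zero_le_one le_rfl le_rfl
  rwa [mul_one, mul_one] at h2

/-- THE ENTROPY OF THE BOX -/
theorem H_box (hT : Hom M Cl g r w ρ TT) {s : MSys S (M + 1) (lin g) (Fin r)} (hs : TT S s) {c : ℝ}
    {α : ℕ → Type} {V : ∀ k, (S.F k).Ω → α k} (hV : Bdd V) (hK : s.IsKap c (Lab.ofZ fun k => Setoid.ker (V k)))
    (hb : h (s.Q.dg 1) (io V) = bnum w ρ c) :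
    H (io V) = (∑ j : Fin M, w j.castSucc + (1 - ρ) * w (Fin.last M)) * c ∧ io V ≤ s.Q.dg 1 := by
  have h1 : io V ≤ s.Q.dg 1 := by
    have h2 := kap_pt hK
    have h3 : PLe (rpI hV.toInf) (rpI (s.Q.bdd 1).toInf) := h2
    rw [PLe_rpI] at h3
    unfold VV.dg
    rwa [io_eq hV, io_eq (s.Q.bdd 1)]
  have h2 : h (s.Q.dg 1) (io V) = H (s.Q.dg 1 ⊔ io V) - H (io V) := rfl
  rw [sup_eq_left.mpr h1, hb, H_pt hT hs, bnum_eq] at h2
  exact ⟨by linarith, h1⟩

end

end Pool.Agent.Helper91.BOX
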