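import Pool.Agent.Helper91.BOX.Rnd
import Pool.Agent.Helper31.EC.Real
import Pool.Agent.Helper5.HB.Rel

/-! LITERAL BOUNDED BOXES, part 2: the digits of the coordinates of the point and of the frame; counting. -/

set_option autoImplicit false

namespace Pool.Agent.Helper91.BOX

open Finset Filter Topology Pool.Agent.Helper69.RK Pool.Agent.Helper31.EC Pool.Agent.Helper31.EC.Sp
open Pool.Agent.Helper40.EL Pool.Agent.Helper3.LF Pool.Agent.Helper84.MT Pool.Agent.Helper36.AM
open Pool.Agent.Helper31.EC.QS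
open Pool.Agent.Helper5.HB (cq)

noncomputable section

variable {S : Sp} {M : ℕ} {Q : S.VV M} {Z : ∀ k, Setoid (S.F k).Ω} {La : Fin M → ℝ}

/-! ### chains -/

/-- entropy of a family one after the other -/
theorem h_sup_sum {N : ℕ} (y : Fin N → S.L) (A : S.L) (b : Fin N → ℝ)
    (hb : ∀ i, h (y i) ((univ.filter fun j => j < i).sup y ⊔ A) ≤ b i) : h (univ.sup y) A ≤ ∑ i, b i := by
  classical
  have key : ∀ t : ℕ, t ≤ N → h ((univ.filter fun j : Fin N => (j : ℕ) < t).sup y) A ≤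
      ∑ i ∈ univ.filter (fun j : Fin N => (j : ℕ) < t), b i := by
    intro t
    induction t with
    | zero =>
      intro _
      have h1 : (univ.filter fun j : Fin N => (j : ℕ) < 0) = ∅ := by
        apply Finset.filter_false_of_mem
        intro i _
        exact Nat.not_lt_zero _
      rw [h1, Finset.sup_empty, Finset.sum_empty]
      exact (h_zero _root_.bot_le).le
    | succ t ih =>
      intro ht
      have h1 : (univ.filter fun j : Fin N => (j : ℕ) < t + 1) =
          insert (⟨t, ht⟩ : Fin N) (univ.filter fun j : Fin N => (j : ℕ) < t) := by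
        ext i
        rw [Finset.mem_insert, Finset.mem_filter, Finset.mem_filter]
        simp only [Finset.mem_univ, true_and, Fin.ext_iff]
        omega
      have h2 : (⟨t, ht⟩ : Fin N) ∉ univ.filter fun j : Fin N => (j : ℕ) < t := by
        rw [Finset.mem_filter]
        exact fun h => lt_irrefl _ h.2
      rw [h1, Finset.sup_insert, Finset.sum_insert h2, sup_comm, h_chain]
      have h3 := ih (by omega)
      have h4 := hb ⟨t, ht⟩
      have h5 : (univ.filter fun j : Fin N => j < ⟨t, ht⟩) = univ.filter fun j : Fin N => (j : ℕ) < t := rfl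
      rw [h5] at h4
      linarith
  have h1 : (univ.filter fun j : Fin N => (j : ℕ) < N) = univ := by
    apply Finset.filter_true_of_mem
    intro i _
    exact i.2
  have h2 := key N le_rfl
  rw [h1] at h2
  exact h2

/-! ### the frame in the ring of functions -/

/-- the coordinates of the frame, scaled: `U_i = 2 ^ (- La_i n) X_i` -/
def fuT (f : Frm Q (Lab.ofZ Z) La) (hL : ∀ i, 0 ≤ La i) (i : Fin M) : TR S :=
  ⟨fun k ω => S.dl (La i) k * (fX f).v k ω i, by
    obtain ⟨K, hK, h⟩ := (fX f).bd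
    refine ⟨K, hK, ?_⟩
    filter_upwards [h, hK.1] with k h1 h2 ω hω
    rw [abs_mul, abs_of_pos (S.dl_pos _ _)]
    have h3 : S.dl (La i) k * |(fX f).v k ω i| ≤ 1 * K k :=
      mul_le_mul (dl_le_one (hL i) k) (h1 ω hω i) (abs_nonneg _) zero_le_one
    rwa [one_mul] at h3⟩

def fu (f : Frm Q (Lab.ofZ Z) La) (hL : ∀ i, 0 ≤ La i) (i : Fin M) : QS S := mk (fuT f hL i)

theorem fu_Id (f : Frm Q (Lab.ofZ Z) La) (hL : ∀ i, 0 ≤ La i) (i : Fin M) (h1 : La i ≤ 1) :
    fu f hL i ∈ Id S (La i) := by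
  rw [fu, mk_mem_Id h1]
  obtain ⟨K, hK, h⟩ := (fX f).bd
  refine ⟨_, K, Typ_true, hK, ?_⟩
  filter_upwards [h] with k h1 ω hω _
  rw [TR.ev_zero, sub_zero]
  show |S.dl (La i) k * (fX f).v k ω i| ≤ K k * S.dl (La i) k
  rw [abs_mul, abs_of_pos (S.dl_pos _ _), mul_comm]
  exact mul_le_mul_of_nonneg_right (h1 ω hω i) (S.dl_pos _ _).le

/-- the rounded coefficients as tame functions -/
def rcT (f : Frm Q (Lab.ofZ Z) La) (D : ℕ) (j : Fin M) (a : Mon M D) : TR S :=
  ⟨fun k ω => S.dl 1 k * (bx f D k ω (ix M D (j, a)) : ℝ), by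
    obtain ⟨K, hK, h⟩ := fP_bd f
    refine ⟨fun k => K k + 1, hK.add (S.Sub_const zero_le_one), ?_⟩
    filter_upwards [h] with k hk ω hω
    have h1 := hk ω hω j a.ex
    have h2 := floor_close (S.dl_pos 1 k) ((fP f k ω j).coeff a.ex)
    have h3 := dl_le_one (S := S) zero_le_one k
    have h4 : (bx f D k ω (ix M D (j, a)) : ℝ) = (⌊(fP f k ω j).coeff a.ex / S.dl 1 k⌋ : ℤ) := by
      rw [bx_rd]
      unfold rd
      rw [cf_ix]
      rfl
    rw [h4]
    have h5 : S.dl 1 k * (⌊(fP f k ω j).coeff a.ex / S.dl 1 k⌋ : ℤ) =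
      (S.dl 1 k * (⌊(fP f k ω j).coeff a.ex / S.dl 1 k⌋ : ℤ) - (fP f k ω j).coeff a.ex) +
        (fP f k ω j).coeff a.ex := by ring
    rw [h5]
    refine (abs_add_le _ _).trans ?_
    linarith⟩

theorem rcT_ev (f : Frm Q (Lab.ofZ Z) La) (D : ℕ) (j : Fin M) (a : Mon M D) (k : ℕ) (ω : (S.F k).Ω) :
    TR.ev (rcT f D j a) k ω = (rP f D k ω j).coeff a.ex := by
  unfold rP
  rw [pof_coeff]
  rfl

/-- the information of the box -/
def bL (f : Frm Q (Lab.ofZ Z) La) (D : ℕ) : S.L := io (α := fun _ => Fin (nc M D) → ℤ) (bx f D)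

theorem rcT_dg (f : Frm Q (Lab.ofZ Z) La) (D : ℕ) (j : Fin M) (a : Mon M D) (r : ℝ) :
    TR.dg (rcT f D j a) r ≤ bL f D := by
  unfold bL
  rw [io_eq (bx_bdd f D)]
  refine TR.dg_le_cl _ _ _ (fun _ _ => True) Typ_true (fun _ => 0) (S.Sub_const le_rfl) ?_
  refine Eventually.of_forall fun k ω ω' _ _ _ _ _ h => ?_
  have h1 : bx f D k ω = bx f D k ω' := h
  have h2 : TR.ev (rcT f D j a) k ω = TR.ev (rcT f D j a) k ω' := by
    rw [rcT_ev, rcT_ev]
    unfold rP
    rw [h1]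
  rw [h2, sub_self, abs_zero, zero_mul]

/-- the polynomial part of the coordinate `j` of the point -/
def puT (f : Frm Q (Lab.ofZ Z) La) (D : ℕ) (hL : ∀ i, 0 ≤ La i) (j : Fin M) : TR S :=
  ∑ a : Mon M D, rcT f D j a * ∏ i, fuT f hL i ^ (a.1 i : ℕ)

theorem puT_ev (f : Frm Q (Lab.ofZ Z) La) (D : ℕ) (hL : ∀ i, 0 ≤ La i) (j : Fin M) (k : ℕ) (ω : (S.F k).Ω) :
    TR.ev (puT f D hL j) k ω =
      MvPolynomial.eval (fun i => S.dl (La i) k * (fX f).v k ω i) (rP f D k ω j) := by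
  have h1 : MvPolynomial.eval (fun i => S.dl (La i) k * (fX f).v k ω i) (rP f D k ω j) =
      ∑ a : Mon M D, (S.dl 1 k * (bx f D k ω (ix M D (j, a)) : ℝ)) *
        ∏ i, (S.dl (La i) k * (fX f).v k ω i) ^ (a.1 i : ℕ) := by
    unfold rP pof
    rw [map_sum]
    refine Finset.sum_congr rfl fun a _ => ?_
    rw [MvPolynomial.eval_monomial, Finsupp.prod_fintype _ _ (fun _ => pow_zero _)]
    rfl
  rw [h1, ← TR.evh_apply]
  unfold puT
  rw [map_sum]
  refine Finset.sum_congr rfl fun a _ => ?_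
  rw [map_mul, map_prod]
  have h2 : TR.evh k ω (rcT f D j a) = S.dl 1 k * (bx f D k ω (ix M D (j, a)) : ℝ) := rfl
  rw [h2]
  congr 1

theorem cq_eq (f : Frm Q (Lab.ofZ Z) La) (D : ℕ) (hL : ∀ i, 0 ≤ La i)
    (hD : ∀ k ω j, ∀ b ∈ (fP f k ω j).support, ∑ i, b i ≤ D) (j : Fin M) :
    cq Q j = mk (puT f D hL j) + fu f hL j := by
  unfold cq fu
  rw [← map_add, mk_eq]
  obtain ⟨K, hK, h⟩ := rP_pt f D hL hD
  refine ⟨fun _ _ => True, K, Typ_true, hK, ?_⟩
  filter_upwards [h] with k hk ω hω _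
  have h1 := hk ω hω j
  rw [TR.ev_add, puT_ev]
  exact h1

/-- vanishing coefficients -/
theorem rcT_zero (f : Frm Q (Lab.ofZ Z) La) (D : ℕ) {j i : Fin M} (hi : ¬ i < j) (a : Mon M D) (ha : (a.1 i : ℕ) ≠ 0) :
    rcT f D j a = 0 := by
  apply Subtype.ext
  funext k ω
  show TR.ev (rcT f D j a) k ω = 0
  rw [rcT_ev]
  by_contra hc
  apply hi
  apply f.tri k ω j i
  apply rd_vars (D := D) (d := S.dl 1 k)
  rw [MvPolynomial.mem_vars_iff_mem_support]
  refine ⟨a.ex, MvPolynomial.mem_support_iff.mpr hc, ?_⟩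
  rw [Finsupp.mem_support_iff]
  exact ha

theorem pu_dg (f : Frm Q (Lab.ofZ Z) La) (D : ℕ) (hL : ∀ i, 0 ≤ La i) (j : Fin M) :
    dg (mk (puT f D hL j)) 1 ≤ (univ.filter fun i => i < j).sup (fun i => dg (fu f hL i) 1) ⊔ bL f D := by
  classical
  rw [← mem_Kn (hr := le_rfl)]
  unfold puT
  rw [map_sum]
  refine Subring.sum_mem _ fun a _ => ?_
  by_cases hz : ∃ i, ¬ i < j ∧ (a.1 i : ℕ) ≠ 0
  · obtain ⟨i, h1, h2⟩ := hz
    rw [rcT_zero f D h1 a h2, zero_mul, map_zero]
    exact Subring.zero_mem _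
  · push Not at hz
    rw [map_mul, map_prod]
    apply Subring.mul_mem
    · rw [mem_Kn, dg_mk _ le_rfl]
      exact (rcT_dg f D j a 1).trans le_sup_right
    · refine Subring.prod_mem _ fun i _ => ?_
      rw [map_pow]
      by_cases hi : i < j
      · apply Subring.pow_mem
        rw [mem_Kn]
        refine le_trans ?_ le_sup_left
        exact Finset.le_sup (f := fun i => dg (fu f hL i) 1) (Finset.mem_filter.mpr ⟨Finset.mem_univ _, hi⟩)
      · rw [hz i (not_lt.mp hi), pow_zero]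
        exact Subring.one_mem _

theorem fu_dg (f : Frm Q (Lab.ofZ Z) La) (D : ℕ) (hL : ∀ i, 0 ≤ La i)
    (hD : ∀ k ω j, ∀ b ∈ (fP f k ω j).support, ∑ i, b i ≤ D) (j : Fin M) :
    dg (fu f hL j) 1 ≤ (univ.filter fun i => i ≤ j).sup (fun i => dg (cq Q i) 1) ⊔ bL f D := by
  classical
  have key : ∀ (n : ℕ) (j : Fin M), (j : ℕ) = n →
      dg (fu f hL j) 1 ≤ (univ.filter fun i => i ≤ j).sup (fun i => dg (cq Q i) 1) ⊔ bL f D := by
    intro n
    induction n using Nat.strong_induction_on with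
    | _ n ih =>
      intro j hj
      have h1 : fu f hL j = cq Q j - mk (puT f D hL j) := by
        rw [cq_eq f D hL hD j, add_sub_cancel_left]
      rw [h1]
      refine (dg_sub_le _ _ le_rfl).trans (_root_.sup_le ?_ ((pu_dg f D hL j).trans (_root_.sup_le ?_ le_sup_right)))
      · refine le_trans ?_ le_sup_left
        exact Finset.le_sup (f := fun i => dg (cq Q i) 1) (Finset.mem_filter.mpr ⟨Finset.mem_univ _, le_rfl⟩)
      · apply Finset.sup_le
        intro i hi
        have hij : i < j := (Finset.mem_filter.mp hi).2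
        refine (ih i (hj ▸ hij) i rfl).trans (_root_.sup_le (le_trans ?_ le_sup_left) le_sup_right)
        apply Finset.sup_mono
        intro l hl
        rw [Finset.mem_filter] at hl ⊢
        exact ⟨hl.1, hl.2.trans hij.le⟩
  exact key j j rfl

/-- the coordinates before `j` determine the polynomial part of the coordinate `j` -/
theorem pu_dg' (f : Frm Q (Lab.ofZ Z) La) (D : ℕ) (hL : ∀ i, 0 ≤ La i)
    (hD : ∀ k ω j, ∀ b ∈ (fP f k ω j).support, ∑ i, b i ≤ D) (j : Fin M) :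
    dg (mk (puT f D hL j)) 1 ≤ (univ.filter fun i => i < j).sup (fun i => dg (cq Q i) 1) ⊔ bL f D := by
  classical
  refine (pu_dg f D hL j).trans (_root_.sup_le ?_ le_sup_right)
  apply Finset.sup_le
  intro i hi
  have hij : i < j := (Finset.mem_filter.mp hi).2
  refine (fu_dg f D hL hD i).trans (_root_.sup_le (le_trans ?_ le_sup_left) le_sup_right)
  apply Finset.sup_mono
  intro l hl
  rw [Finset.mem_filter] at hl ⊢
  exact ⟨hl.1, lt_of_le_of_lt hl.2 hij⟩

/-- the first digits of the coordinate `j` are known to the box and the coordinates before `j` -/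
theorem cq_dg (f : Frm Q (Lab.ofZ Z) La) (D : ℕ) (hL : ∀ i, 0 ≤ La i)
    (hD : ∀ k ω j, ∀ b ∈ (fP f k ω j).support, ∑ i, b i ≤ D) (j : Fin M) (h1 : La j ≤ 1) :
    dg (cq Q j) (La j) ≤ (univ.filter fun i => i < j).sup (fun i => dg (cq Q i) 1) ⊔ bL f D := by
  have h2 : cq Q j - mk (puT f D hL j) ∈ Id S (La j) := by
    rw [cq_eq f D hL hD j, add_sub_cancel_left]
    exact fu_Id f hL j h1
  rw [dg_eq_of_sub_mem h2 le_rfl h1]
  exact (dg_mono _ h1).trans (pu_dg' f D hL hD j)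

/-- the digits of the point -/
theorem Q_dg_eq (Q : S.VV M) {r : ℝ} (hr : r ≤ 1) : Q.dg r = univ.sup fun i => dg (cq Q i) r := by
  have h1 : Q.dg r = (TR.vec (TR.cor Q)).dg r := rfl
  rw [h1, TR.vec_dg_eq]
  congr 1
  funext i
  unfold cq
  rw [dg_mk _ hr]

/-- VOLUME COUNT, all coordinates free -/
theorem h_box_le (f : Frm Q (Lab.ofZ Z) La) (D : ℕ) (hL : ∀ i, 0 ≤ La i)
    (hD : ∀ k ω j, ∀ b ∈ (fP f k ω j).support, ∑ i, b i ≤ D) (h1 : ∀ i, La i ≤ 1) :
    h (Q.dg 1) (bL f D) ≤ ∑ i, (1 - La i) := by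
  rw [Q_dg_eq Q le_rfl]
  apply h_sup_sum
  intro i
  exact (h_anti (cq_dg f D hL hD i (h1 i))).trans (h_dg_dg _ (h1 i))

/-- the cells of all coordinates but the last one -/
theorem ozr_dg_eq {M : ℕ} (Q : S.VV (M + 1)) {r : ℝ} (hr : r ≤ 1) :
    (ozr Q (Fin.last M)).dg r ≤ (univ.filter fun i => i < Fin.last M).sup (fun i => dg (cq Q i) r) := by
  rw [TR.vv_dg_le_iff]
  intro i
  by_cases hi : i = Fin.last M
  · have h2 : TR.cor (ozr Q (Fin.last M)) i = 0 := by
      apply Subtype.ext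
      funext k ω
      show (ozr Q (Fin.last M)).v k ω i = 0
      rw [ozr_v, if_pos hi]
    rw [h2]
    exact ((TR.Kn S r ⊥).zero_mem).trans _root_.bot_le
  · have h2 : TR.cor (ozr Q (Fin.last M)) i = TR.cor Q i := by
      apply Subtype.ext
      funext k ω
      show (ozr Q (Fin.last M)).v k ω i = Q.v k ω i
      rw [ozr_v, if_neg hi]
    rw [h2, ← dg_mk _ hr]
    exact Finset.le_sup (f := fun i => dg (cq Q i) r) (Finset.mem_filter.mpr ⟨Finset.mem_univ _, Fin.lt_last_iff_ne_last.mpr hi⟩)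

/-- VOLUME COUNT with the deficit of the last coordinate: `v` is the entropy of the last coordinate given the others
and its digits of level `La_last` -/
theorem h_box_last {M : ℕ} {Q : S.VV (M + 1)} {La : Fin (M + 1) → ℝ} (f : Frm Q (Lab.ofZ Z) La) (D : ℕ)
    (hL : ∀ i, 0 ≤ La i) (hD : ∀ k ω j, ∀ b ∈ (fP f k ω j).support, ∑ i, b i ≤ D) (h1 : ∀ i, La i ≤ 1) :
    h (Q.dg 1) (bL f D) ≤ ∑ i : Fin M, (1 - La i.castSucc) +
      (H (Q.dg 1) - H (cel2L Q (Fin.last M) 1 (La (Fin.last M)))) := by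
  classical
  have key : h (univ.sup fun i => dg (cq Q i) 1) (bL f D) ≤ ∑ i : Fin (M + 1), (if i = Fin.last M then
      (H (Q.dg 1) - H (cel2L Q (Fin.last M) 1 (La (Fin.last M)))) else 1 - La i) := by
    apply h_sup_sum
    intro i
    by_cases hi : i = Fin.last M
    · rw [if_pos hi, hi]
      have e1 : cel2L Q (Fin.last M) 1 (La (Fin.last M)) ≤
          (univ.filter fun j => j < Fin.last M).sup (fun i => dg (cq Q i) 1) ⊔ bL f D := by
        unfold cel2L
        refine _root_.sup_le ?_ ((ozr_dg_eq Q le_rfl).trans le_sup_left)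
        rw [Q_dg_eq Q (h1 _)]
        apply Finset.sup_le
        intro l _
        by_cases hl : l = Fin.last M
        · rw [hl]
          exact cq_dg f D hL hD _ (h1 _)
        · refine (dg_mono _ (h1 _)).trans (le_trans ?_ le_sup_left)
          exact Finset.le_sup (f := fun i => dg (cq Q i) 1)
            (Finset.mem_filter.mpr ⟨Finset.mem_univ _, Fin.lt_last_iff_ne_last.mpr hl⟩)
      have e2 : dg (cq Q (Fin.last M)) 1 ≤ Q.dg 1 := by
        rw [Q_dg_eq Q le_rfl]
        exact Finset.le_sup (f := fun i => dg (cq Q i) 1) (Finset.mem_univ _)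
      have e3 : cel2L Q (Fin.last M) 1 (La (Fin.last M)) ≤ Q.dg 1 := by
        have e4 := cel2L_mono Q (Fin.last M) (le_refl (1 : ℝ)) (h1 (Fin.last M))
        rwa [cel2L_self] at e4
      have e5 : h (Q.dg 1) (cel2L Q (Fin.last M) 1 (La (Fin.last M))) =
          H (Q.dg 1) - H (cel2L Q (Fin.last M) 1 (La (Fin.last M))) := by
        have e6 : h (Q.dg 1) (cel2L Q (Fin.last M) 1 (La (Fin.last M))) =
          H (Q.dg 1 ⊔ cel2L Q (Fin.last M) 1 (La (Fin.last M))) - H (cel2L Q (Fin.last M) 1 (La (Fin.last M))) := rfl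
        rw [e6, sup_eq_left.mpr e3]
      rw [← e5]
      exact (h_anti e1).trans (h_mono e2)
    · rw [if_neg hi]
      exact (h_anti (cq_dg f D hL hD i (h1 i))).trans (h_dg_dg _ (h1 i))
  rw [Q_dg_eq Q le_rfl]
  rw [Q_dg_eq Q le_rfl] at key
  refine key.trans (le_of_eq ?_)
  rw [Fin.sum_univ_castSucc, if_pos rfl]
  congr 1
  refine Finset.sum_congr rfl fun i _ => ?_
  rw [if_neg (Fin.castSucc_lt_last i).ne]

end

end Pool.Agent.Helper91.BOX
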