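import Pool.Agent.Helper91.BOX.Lvl
import Pool.Agent.Helper50.BLD.Lt

/-! LITERAL BOUNDED BOXES, part 7: the data of one box of a corner from a frame: literal variable, generating functions,
frame polynomials in the coordinates `(q, R)`. -/

set_option autoImplicit false

namespace Pool.Agent.Helper91.BOX

open Finset Filter Topology Pool.Agent.Helper69.RK Pool.Agent.Helper31.EC Pool.Agent.Helper31.EC.Sp
open Pool.Agent.Helper40.EL Pool.Agent.Helper3.LF Pool.Agent.Helper84.MT Pool.Agent.Helper36.AM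
open Pool.Agent.Helper31.EC.QS
open Pool.Agent.Helper5.HB (cq)
open Pool.Agent.Helper82.TP (Lit)
open Pool.Agent.Helper57.TA (wgt)

noncomputable section

/-! ### polynomials with given coefficients -/

section

variable {A : Type} [CommRing A] {M D : ℕ}

def pm (v : Mon M D → A) : MvPolynomial (Fin M) A := ∑ a, MvPolynomial.monomial a.ex (v a)

theorem pm_coeff (v : Mon M D → A) (a : Mon M D) : (pm v).coeff a.ex = v a := by
  classical
  unfold pm
  rw [MvPolynomial.coeff_sum, Finset.sum_eq_single a]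
  · rw [MvPolynomial.coeff_monomial, if_pos rfl]
  · intro b _ hb
    rw [MvPolynomial.coeff_monomial, if_neg]
    exact fun h => hb (ex_inj h)
  · intro h
    exact absurd (Finset.mem_univ a) h

theorem pm_coeff_not (v : Mon M D → A) (b : Fin M →₀ ℕ) (hb : ∀ a : Mon M D, a.ex ≠ b) : (pm v).coeff b = 0 := by
  classical
  unfold pm
  rw [MvPolynomial.coeff_sum]
  apply Finset.sum_eq_zero
  intro a _
  rw [MvPolynomial.coeff_monomial, if_neg (hb a)]

theorem pm_ne (v : Mon M D → A) (b : Fin M →₀ ℕ) (h : (pm v).coeff b ≠ 0) : ∃ a : Mon M D, a.ex = b ∧ v a ≠ 0 := by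
  by_cases hb : ∃ a : Mon M D, a.ex = b
  · obtain ⟨a, rfl⟩ := hb
    rw [pm_coeff] at h
    exact ⟨a, rfl, h⟩
  · push Not at hb
    exact absurd (pm_coeff_not v b hb) h

theorem pm_map {B : Type} [CommRing B] (φ : A →+* B) (v : Mon M D → A) :
    MvPolynomial.map φ (pm v) = pm fun a => φ (v a) := by
  unfold pm
  rw [map_sum]
  exact Finset.sum_congr rfl fun a _ => by rw [MvPolynomial.map_monomial]

theorem pm_eval (v : Mon M D → A) (x : Fin M → A) :
    MvPolynomial.eval x (pm v) = ∑ a, v a * ∏ i, x i ^ (a.1 i : ℕ) := by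
  unfold pm
  rw [map_sum]
  refine Finset.sum_congr rfl fun a _ => ?_
  rw [MvPolynomial.eval_monomial, Finsupp.prod_fintype _ _ (fun _ => pow_zero _)]
  rfl

end

/-! ### literal functions -/

variable {S : Sp}

theorem lit_zero {β : ℕ → Type} {V : ∀ k, (S.F k).Ω → β k} : Lit V (0 : QS S) :=
  ⟨0, map_zero _, Eventually.of_forall fun _ _ _ _ _ _ _ => rfl⟩

variable {M : ℕ} {Q : S.VV M} {Z : ∀ k, Setoid (S.F k).Ω} {La : Fin M → ℝ}

theorem lit_rc (f : Frm Q (Lab.ofZ Z) La) (D : ℕ) (j : Fin M) (a : Mon M D) :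
    Lit (β := fun _ => Fin (nc M D) → ℤ) (bx f D) (mk (rcT f D j a)) := by
  refine ⟨rcT f D j a, rfl, Eventually.of_forall fun k ω ω' _ _ _ h => ?_⟩
  rw [rcT_ev, rcT_ev]
  unfold rP
  rw [h]

/-- the coefficients and the rounded coefficients -/
theorem cor_rc (f : Frm Q (Lab.ofZ Z) La) (D : ℕ) (i : Fin (nc M D)) :
    cq (cfv f D) i = mk (rcT f D ((ix M D).symm i).1 ((ix M D).symm i).2) := by
  unfold cq
  rw [mk_eq]
  refine ⟨fun _ _ => True, fun _ => 1, Typ_true, S.Sub_const zero_le_one, Eventually.of_forall fun k ω _ _ => ?_⟩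
  have h1 : TR.ev (TR.cor (cfv f D) i) k ω = cf D (fP f k ω) i := rfl
  have h2 : TR.ev (rcT f D ((ix M D).symm i).1 ((ix M D).symm i).2) k ω =
      S.dl 1 k * (⌊cf D (fP f k ω) i / S.dl 1 k⌋ : ℤ) := by
    show S.dl 1 k * (bx f D k ω (ix M D (((ix M D).symm i).1, ((ix M D).symm i).2)) : ℝ) = _
    rw [Prod.mk.eta, Equiv.apply_symm_apply]
    rfl
  rw [h1, h2, abs_sub_comm, one_mul]
  exact floor_close (S.dl_pos 1 k) _

/-- the box is generated by the coefficients -/
theorem bL_gen (f : Frm Q (Lab.ofZ Z) La) (D : ℕ) :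
    bL f D = vd (fun i : Fin (nc M D) => mk (rcT f D ((ix M D).symm i).1 ((ix M D).symm i).2)) 1 := by
  have h1 : bL f D = (cfv f D).dg 1 := rfl
  rw [h1, Q_dg_eq (cfv f D) le_rfl]
  unfold vd
  congr 1
  funext i
  rw [cor_rc]

/-- vanishing of the coefficients of large weight -/
theorem rc_red (f : Frm Q (Lab.ofZ Z) La) (D : ℕ) (j : Fin M) (a : Mon M D) (h : mk (rcT f D j a) ≠ 0)
    (h0 : a.ex ≠ 0) : ∑ i, ((a.1 i : ℕ) : ℝ) * La i < La j := by
  by_contra hc
  apply h
  have h1 : rcT f D j a = 0 := by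
    apply Subtype.ext
    funext k ω
    show TR.ev (rcT f D j a) k ω = 0
    rw [rcT_ev]
    by_contra h2
    apply hc
    exact f.red k ω j a.ex (rd_supp (D := D) (d := S.dl 1 k) (MvPolynomial.mem_support_iff.mpr h2)) h0
  rw [h1, map_zero]

/-! ### the data of one box -/

/-- DATA OF ONE BOX -/
structure BD (S : Sp) (d N : ℕ) where
  kb : ℕ → Type
  VK : ∀ k, (S.F k).Ω → kb k
  m : ℕ
  G : Fin m → QS S
  q0 : Fin (d + 1) → QS S
  F : Fin N → MvPolynomial (Fin (d + 1) ⊕ Fin N) (QS S)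
  γ : Fin N → QS S

namespace BD

variable {d N : ℕ}

/-- the conditions for all scales -/
structure Sft (B : BD S d N) (w : Fin N → ℝ) : Prop where
  bdd : Bdd B.VK
  lit : ∀ a, Lit B.VK (B.G a)
  deg : ∀ j n, (B.F j).coeff n ≠ 0 → wgt (Sum.elim (fun _ => 1) w) n < w j
  litq : ∀ i, Lit B.VK (B.q0 i)
  litF : ∀ j n, Lit B.VK ((B.F j).coeff n)
  gq : ∀ i, B.q0 i ≠ 0 → ∃ a, B.q0 i = B.G a
  gF : ∀ j n, (B.F j).coeff n ≠ 0 → ∃ a, (B.F j).coeff n = B.G a

/-- the conditions for the scales of the corner -/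
structure Ok (B : BD S d N) (q : Fin (d + 1) → QS S) (R : Fin N → QS S) (w : Fin N → ℝ) (c : ℝ) : Prop where
  gen : io B.VK = vd B.G 1
  fq : ∀ i, q i - B.q0 i ∈ Id S c
  fγ : ∀ j, B.γ j ∈ Id S (w j * c)
  fR : ∀ j, R j = MvPolynomial.eval (Sum.elim (fun i => q i - B.q0 i) B.γ) (B.F j) + B.γ j

/-- the trivial box -/
def tv (S : Sp) (d N : ℕ) : BD S d N where
  kb := fun _ => Unit
  VK := fun _ _ => ()
  m := 0
  G := Fin.elim0
  q0 := fun _ => 0
  F := fun _ => 0
  γ := fun _ => 0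

theorem tv_sft (w : Fin N → ℝ) : (tv S d N).Sft w where
  bdd := VB.mono VB_tr (Eventually.of_forall fun _ _ _ _ _ _ _ => rfl)
  lit := fun a => a.elim0
  deg := fun j n h => by
    have h1 : ((tv S d N).F j).coeff n = 0 := MvPolynomial.coeff_zero n
    exact absurd h1 h
  litq := fun _ => lit_zero
  litF := fun j n => by
    have h1 : ((tv S d N).F j).coeff n = 0 := MvPolynomial.coeff_zero n
    rw [h1]
    exact lit_zero
  gq := fun i h => absurd rfl h
  gF := fun j n h => by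
    have h1 : ((tv S d N).F j).coeff n = 0 := MvPolynomial.coeff_zero n
    exact absurd h1 h

end BD

/-- THE DATA OF THE BOX of a frame -/
def bdOf {d N : ℕ} (σ : Fin (d + 1) ⊕ Fin N ≃ Fin M) (f : Frm Q (Lab.ofZ Z) La) (D : ℕ) (hL : ∀ i, 0 ≤ La i) :
    BD S d N where
  kb := fun _ => Fin (nc M D) → ℤ
  VK := bx f D
  m := nc M D
  G := fun i => mk (rcT f D ((ix M D).symm i).1 ((ix M D).symm i).2)
  q0 := fun i => mk (rcT f D (σ (Sum.inl i)) (Mon.zero M D))
  F := fun j => MvPolynomial.rename σ.symm (pm fun a => mk (rcT f D (σ (Sum.inr j)) a))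
  γ := fun j => fu f hL (σ (Sum.inr j))

section

variable {d N : ℕ} (σ : Fin (d + 1) ⊕ Fin N ≃ Fin M) (f : Frm Q (Lab.ofZ Z) La) (D : ℕ) (hL : ∀ i, 0 ≤ La i)
  (W : Fin M → ℝ) (c : ℝ)

theorem wgt_map (u : Fin M →₀ ℕ) (hq : ∀ i, W (σ (Sum.inl i)) = 1) :
    wgt (Sum.elim (fun _ => 1) fun j => W (σ (Sum.inr j))) (u.mapDomain σ.symm) = ∑ i, (u i : ℝ) * W i := by
  unfold wgt
  rw [← Equiv.sum_comp σ.symm]
  refine Finset.sum_congr rfl fun i _ => ?_
  rw [Finsupp.mapDomain_equiv_apply, Equiv.symm_symm, Equiv.apply_symm_apply]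
  congr 1
  rcases h : σ.symm i with a | a
  · have h1 : σ (Sum.inl a) = i := by rw [← h, Equiv.apply_symm_apply]
    rw [Sum.elim_inl, ← h1, hq]
  · have h1 : σ (Sum.inr a) = i := by rw [← h, Equiv.apply_symm_apply]
    rw [Sum.elim_inr, h1]

theorem bdOf_sft (hc : 0 < c) (hLa : ∀ i, La i = W i * c) (hq : ∀ i, W (σ (Sum.inl i)) = 1)
    (hR : ∀ j, 1 < W (σ (Sum.inr j))) : (bdOf σ f D hL).Sft fun j => W (σ (Sum.inr j)) where
  bdd := bx_bdd f D
  lit := fun a => lit_rc f D _ _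
  deg := fun j n hn => by
    obtain ⟨u, rfl, hu⟩ := MvPolynomial.coeff_rename_ne_zero _ _ _ hn
    obtain ⟨a, rfl, ha⟩ := pm_ne _ _ hu
    rw [wgt_map σ W _ hq]
    by_cases h0 : a.ex = 0
    · rw [h0]
      simp only [Finsupp.coe_zero, Pi.zero_apply, Nat.cast_zero, zero_mul, Finset.sum_const_zero]
      exact lt_trans one_pos (hR j)
    · have h1 := rc_red f D _ a ha h0
      simp only [hLa] at h1
      have h2 : ∑ i, ((a.1 i : ℕ) : ℝ) * (W i * c) = (∑ i, (a.ex i : ℝ) * W i) * c := by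
        rw [Finset.sum_mul]
        refine Finset.sum_congr rfl fun i _ => ?_
        rw [Mon.ex_apply]
        ring
      rw [h2] at h1
      exact lt_of_mul_lt_mul_right h1 hc.le
  litq := fun i => lit_rc f D _ _
  litF := fun j n => by
    by_cases hn : ((bdOf σ f D hL).F j).coeff n = 0
    · rw [hn]
      exact lit_zero
    · have hn' : (MvPolynomial.rename σ.symm (pm fun a => mk (rcT f D (σ (Sum.inr j)) a))).coeff n ≠ 0 := hn
      obtain ⟨u, rfl, hu⟩ := MvPolynomial.coeff_rename_ne_zero _ _ _ hn'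
      obtain ⟨a, rfl, ha⟩ := pm_ne _ _ hu
      have h1 : ((bdOf σ f D hL).F j).coeff (a.ex.mapDomain σ.symm) = mk (rcT f D (σ (Sum.inr j)) a) := by
        show (MvPolynomial.rename σ.symm (pm fun a => mk (rcT f D (σ (Sum.inr j)) a))).coeff _ = _
        rw [MvPolynomial.coeff_rename_mapDomain _ σ.symm.injective, pm_coeff]
      rw [h1]
      exact lit_rc f D _ _
  gq := fun i _ => ⟨ix M D (σ (Sum.inl i), Mon.zero M D), by
    show mk (rcT f D (σ (Sum.inl i)) (Mon.zero M D)) = mk (rcT f D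
      ((ix M D).symm (ix M D (σ (Sum.inl i), Mon.zero M D))).1 ((ix M D).symm (ix M D (σ (Sum.inl i), Mon.zero M D))).2)
    rw [Equiv.symm_apply_apply]⟩
  gF := fun j n hn => by
    have hn' : (MvPolynomial.rename σ.symm (pm fun a => mk (rcT f D (σ (Sum.inr j)) a))).coeff n ≠ 0 := hn
    obtain ⟨u, rfl, hu⟩ := MvPolynomial.coeff_rename_ne_zero _ _ _ hn'
    obtain ⟨a, rfl, ha⟩ := pm_ne _ _ hu
    refine ⟨ix M D (σ (Sum.inr j), a), ?_⟩
    have h1 : ((bdOf σ f D hL).F j).coeff (a.ex.mapDomain σ.symm) = mk (rcT f D (σ (Sum.inr j)) a) := by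
      show (MvPolynomial.rename σ.symm (pm fun a => mk (rcT f D (σ (Sum.inr j)) a))).coeff _ = _
      rw [MvPolynomial.coeff_rename_mapDomain _ σ.symm.injective, pm_coeff]
    have h2 : (bdOf σ f D hL).G (ix M D (σ (Sum.inr j), a)) = mk (rcT f D (σ (Sum.inr j)) a) := by
      show mk (rcT f D ((ix M D).symm (ix M D (σ (Sum.inr j), a))).1
        ((ix M D).symm (ix M D (σ (Sum.inr j), a))).2) = _
      rw [Equiv.symm_apply_apply]
    rw [h1, h2]

/-- the polynomial part of the coordinate `j` -/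
theorem puT_pm (j : Fin M) : mk (puT f D hL j) = MvPolynomial.eval (fu f hL) (pm fun a => mk (rcT f D j a)) := by
  rw [pm_eval]
  unfold puT fu
  rw [map_sum]
  refine Finset.sum_congr rfl fun a _ => ?_
  rw [map_mul, map_prod]
  congr 1

/-- the coordinates of weight one -/
theorem puT_one (hc : 0 < c) (hLa : ∀ i, La i = W i * c) (h1 : ∀ i, 1 ≤ W i) (j : Fin M) (hj : W j = 1) :
    mk (puT f D hL j) = mk (rcT f D j (Mon.zero M D)) := by
  classical
  rw [puT_pm, pm_eval, Finset.sum_eq_single (Mon.zero M D)]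
  · have h2 : ∏ i, fu f hL i ^ (((Mon.zero M D).1 i : Fin (D + 1)) : ℕ) = 1 :=
      Finset.prod_eq_one fun i _ => pow_zero _
    rw [h2, mul_one]
  · intro a _ ha
    have h3 : mk (rcT f D j a) = 0 := by
      by_contra hc'
      have h0 : a.ex ≠ 0 := by
        intro h4
        apply ha
        apply ex_inj
        rw [h4]
        ext i
        rfl
      have h4 := rc_red f D j a hc' h0
      simp only [hLa, hj, one_mul] at h4
      have h5 : ∃ i, a.ex i ≠ 0 := by
        by_contra h6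
        push Not at h6
        exact h0 (Finsupp.ext h6)
      obtain ⟨i, hi⟩ := h5
      have h6 : c ≤ ((a.1 i : ℕ) : ℝ) * (W i * c) := by
        have h7 : (1 : ℝ) ≤ ((a.1 i : ℕ) : ℝ) := by
          have h8 : 1 ≤ (a.1 i : ℕ) := Nat.one_le_iff_ne_zero.mpr hi
          exact_mod_cast h8
        have h8 : c ≤ W i * c := by
          have := mul_le_mul_of_nonneg_right (h1 i) hc.le
          rwa [one_mul] at this
        have h9 := mul_le_mul h7 h8 hc.le (zero_le_one.trans h7)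
        rwa [one_mul] at h9
      have h7 : ((a.1 i : ℕ) : ℝ) * (W i * c) ≤ ∑ i, ((a.1 i : ℕ) : ℝ) * (W i * c) :=
        Finset.single_le_sum (f := fun i => ((a.1 i : ℕ) : ℝ) * (W i * c))
          (fun l _ => mul_nonneg (Nat.cast_nonneg _) (mul_nonneg (zero_le_one.trans (h1 l)) hc.le)) (Finset.mem_univ i)
      linarith
    rw [h3, zero_mul]
  · intro h
    exact absurd (Finset.mem_univ _) h

theorem bdOf_ok (hc : 0 < c) (hLa : ∀ i, La i = W i * c) (h1 : ∀ i, 1 ≤ W i) (hLa1 : ∀ i, La i ≤ 1)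
    (hD : ∀ k ω j, ∀ b ∈ (fP f k ω j).support, ∑ i, b i ≤ D) (hq : ∀ i, W (σ (Sum.inl i)) = 1) :
    (bdOf σ f D hL).Ok (fun i => cq Q (σ (Sum.inl i))) (fun j => cq Q (σ (Sum.inr j)))
      (fun j => W (σ (Sum.inr j))) c := by
  have e1 : ∀ i, cq Q (σ (Sum.inl i)) - (bdOf σ f D hL).q0 i = fu f hL (σ (Sum.inl i)) := fun i => by
    have e2 := cq_eq f D hL hD (σ (Sum.inl i))
    rw [puT_one f D hL W c hc hLa h1 _ (hq i)] at e2
    rw [e2]
    exact add_sub_cancel_left _ _
  refine ⟨bL_gen f D, fun i => ?_, fun j => ?_, fun j => ?_⟩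
  · rw [e1]
    have e2 := fu_Id f hL (σ (Sum.inl i)) (hLa1 _)
    rwa [hLa, hq, one_mul] at e2
  · have e2 := fu_Id f hL (σ (Sum.inr j)) (hLa1 _)
    rwa [hLa] at e2
  · have e2 := cq_eq f D hL hD (σ (Sum.inr j))
    rw [puT_pm] at e2
    rw [e2]
    congr 1
    show _ = MvPolynomial.eval _ (MvPolynomial.rename σ.symm (pm fun a => mk (rcT f D (σ (Sum.inr j)) a)))
    rw [MvPolynomial.eval_rename]
    congr 2
    funext i
    show fu f hL i = Sum.elim _ _ (σ.symm i)
    rcases h : σ.symm i with a | a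
    · have h1 : σ (Sum.inl a) = i := by rw [← h, Equiv.apply_symm_apply]
      rw [Sum.elim_inl, e1, h1]
    · have h1 : σ (Sum.inr a) = i := by rw [← h, Equiv.apply_symm_apply]
      rw [Sum.elim_inr]
      show _ = fu f hL (σ (Sum.inr a))
      rw [h1]

end

end

end Pool.Agent.Helper91.BOX
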