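import Pool.Agent.Helper91.BOX.Lin
import Pool.Agent.Helper10.BLD.St

/-! LITERAL BOUNDED BOXES, part 9: THE BOXES OF THE FIRST CORNER over the truncation of a member of a homogeneous class:
all axioms `Bx`, for every choice of types. -/

set_option autoImplicit false

namespace Pool.Agent.Helper91.BOX

open Finset Filter Topology Pool.Agent.Helper69.RK Pool.Agent.Helper31.EC Pool.Agent.Helper31.EC.Sp
open Pool.Agent.Helper40.EL Pool.Agent.Helper3.LF Pool.Agent.Helper84.MT Pool.Agent.Helper36.AM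
open Pool.Agent.Helper31.EC.QS
open Pool.Agent.Helper5.HB (cq)
open Pool.Agent.Helper33.LIT
open Pool.Agent.Helper82.TP (Lit)
open Pool.Agent.Helper57.TA (wgt rcst)
open Pool.Agent.Helper13.AM (CD)
open Pool.Agent.Helper10.BLD (Spl qA Rv qc)
open Pool.Agent.Helper50.BLD (LT cdOf lw KP cdOf_xi)
open Pool.Agent.Helper52.SL (untL)

noncomputable section

variable {S : Sp} {d N : ℕ}

/-! ### the box of scale `0` -/

/-- the trivial box with given `γ` -/
def tvg (γ : Fin N → QS S) : BD S d N where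
  kb := fun _ => Unit
  VK := fun _ _ => ()
  m := 0
  G := Fin.elim0
  q0 := fun _ => 0
  F := fun _ => 0
  γ := γ

theorem tvg_sft (γ : Fin N → QS S) (w : Fin N → ℝ) : (tvg (d := d) γ).Sft w where
  bdd := VB.mono VB_tr (Eventually.of_forall fun _ _ _ _ _ _ _ => rfl)
  lit := fun a => a.elim0
  deg := fun j n h => by
    have h1 : ((tvg (d := d) γ).F j).coeff n = 0 := MvPolynomial.coeff_zero n
    exact absurd h1 h
  litq := fun _ => lit_zero
  litF := fun j n => by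
    have h1 : ((tvg (d := d) γ).F j).coeff n = 0 := MvPolynomial.coeff_zero n
    rw [h1]
    exact lit_zero
  gq := fun i h => absurd rfl h
  gF := fun j n h => by
    have h1 : ((tvg (d := d) γ).F j).coeff n = 0 := MvPolynomial.coeff_zero n
    exact absurd h1 h

theorem io_unit : io (S := S) (α := fun _ => Unit) (fun _ _ => ()) = ⊥ := by
  have hV : Bdd (S := S) (α := fun _ => Unit) (fun _ _ => ()) :=
    VB.mono VB_tr (Eventually.of_forall fun k ω ω' _ _ _ _ => rfl)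
  apply le_antisymm _ _root_.bot_le
  rw [io_eq hV, ← cl_bot, cl_le]
  apply Inf.le_of_le
  exact Eventually.of_forall fun k ω ω' _ => rfl

theorem tvg_ok (q : Fin (d + 1) → QS S) (R : Fin N → QS S) (w : Fin N → ℝ) : (tvg (d := d) R).Ok q R w 0 where
  gen := by
    have h1 : io (tvg (d := d) R).VK = ⊥ := io_unit
    rw [h1]
    apply le_antisymm _root_.bot_le
    rw [vd_le]
    exact fun a => a.elim0
  fq := fun i => mem_Id_nonpos le_rfl
  fγ := fun j => mem_Id_nonpos (by rw [mul_zero])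
  fR := fun j => by
    show R j = MvPolynomial.eval _ 0 + R j
    rw [map_zero, zero_add]

/-! ### the axioms of the boxes -/

theorem cd_bx {r g : ℕ} {q : Fin (d + 1) → QS S} {R : Fin N → QS S} {w : Fin N → ℝ} {z : Fin N}
    (hw : 1 < w z) (B : ℝ → BD S d N) (hS : ∀ c, (B c).Sft w) (hO : ∀ c, 0 ≤ c → w z * c ≤ 1 → (B c).Ok q R w c)
    (hV0 : ∀ k ω ω', (B 0).VK k ω = (B 0).VK k ω') (hq0 : ∀ i, (B 0).q0 i = 0) (hF0 : ∀ j, (B 0).F j = 0)
    (hmono : ∀ c c', 0 ≤ c → c ≤ c' → w z * c' ≤ 1 → io (B c).VK ≤ io (B c').VK)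
    (hpt : ∀ c, 0 ≤ c → w z * c ≤ 1 → io (B c).VK ≤ vd q (w z * c) ⊔ vd R (w z * c))
    (T : Fin r → LT S d N g q R)
    (hT : ∀ i c, 0 ≤ c → w z * c ≤ 1 → KP (lw (T i).V (q 0) c) (io (B c).VK)) :
    (cdOf T (fun c => (B c).kb) (fun c => (B c).VK) (fun c => (B c).m) (fun c => (B c).G) (fun c => (B c).q0)
      (fun c => (B c).F) (fun c => (B c).γ)).Bx w z where
  bdd := fun c => (hS c).bdd
  zero := fun k ω ω' _ _ _ => hV0 k ω ω'
  lit := fun c a => (hS c).lit a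
  gen := fun c h0 h1 => (hO c h0 h1).gen
  mono := hmono
  pt := hpt
  xi := fun c h0 h1 i => by
    rw [cdOf_xi]
    show io (B c).VK ≤ (T i).xi ⊔ dg (q 0) c
    have hc1 : c ≤ 1 := by
      have h2 : 1 * c ≤ w z * c := mul_le_mul_of_nonneg_right hw.le h0
      linarith
    have e1 : I (io (B c).VK) (vd q 1) ((T i).xi ⊔ dg (q 0) c) = 0 := (T i).indep h0 hc1 (hT i c h0 h1)
    have e2 : io (B c).VK ≤ vd q 1 ⊔ ((T i).xi ⊔ dg (q 0) c) := by
      refine (hpt c h0 h1).trans (_root_.sup_le ((vd_mono _ h1).trans le_sup_left) ?_)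
      rw [vd_le]
      intro j
      refine (dg_mono _ h1).trans ?_
      rw [(T i).curve j, ← mem_Kn (hr := le_rfl)]
      unfold pe
      refine Subring.sum_mem _ fun n _ => Subring.mul_mem _ ?_ (Subring.pow_mem _ ?_ _)
      · rw [mem_Kn]
        refine le_trans ?_ (le_sup_left.trans le_sup_right)
        refine le_trans ?_ (le_sup_right (a := vd (T i).a 1 ⊔ vd (T i).u 1)
          (b := vd (fun x : Fin N × Fin (g + 1) => (T i).cf x.1 x.2) 1))
        exact dg_le_vd (fun x : Fin N × Fin (g + 1) => (T i).cf x.1 x.2) 1 (j, n)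
      · rw [mem_Kn]
        exact (dg_le_vd q 1 0).trans le_sup_left
    rw [← h_le_zero_iff]
    have h4 := Pool.Agent.Helper33.CM.h_add_I (io (B c).VK) (vd q 1) ((T i).xi ⊔ dg (q 0) c)
    rw [e1, h_zero e2] at h4
    linarith
  fq := fun c h0 h1 => (hO c h0 h1).fq
  fγ := fun c h0 h1 => (hO c h0 h1).fγ
  fR := fun c h0 h1 => (hO c h0 h1).fR
  deg := fun c => (hS c).deg
  litq := fun c => (hS c).litq
  litF := fun c => (hS c).litF
  gq := fun c => (hS c).gq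
  gF := fun c => (hS c).gF
  q00 := hq0
  F0 := hF0

/-! ### splittings -/

/-- the splitting as an equivalence -/
def spe {M : ℕ} {w : Fin (M + 1) → ℝ} (P : Spl w d N) : Fin (d + 1) ⊕ Fin N ≃ Fin (M + 1) :=
  Equiv.ofBijective (Sum.elim P.bI P.vI) (by
    constructor
    · rintro (a | a) (b | b) h
      · exact congrArg Sum.inl (P.sb.injective h)
      · exact absurd h (P.bv a b).ne
      · exact absurd h (P.bv b a).ne'
      · exact congrArg Sum.inr (P.sv.injective h)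
    · intro a
      rcases P.cov a with ⟨i, hi⟩ | ⟨j, hj⟩
      · exact ⟨Sum.inl i, hi⟩
      · exact ⟨Sum.inr j, hj⟩)

theorem spe_inl {M : ℕ} {w : Fin (M + 1) → ℝ} (P : Spl w d N) (i : Fin (d + 1)) : spe P (Sum.inl i) = P.bI i := rfl

theorem spe_inr {M : ℕ} {w : Fin (M + 1) → ℝ} (P : Spl w d N) (j : Fin N) : spe P (Sum.inr j) = P.vI j := rfl

section

variable {M : ℕ} {Cl : MCl (M + 1)} {g r : ℕ} {w : Fin (M + 1) → ℝ} {ρ : ℝ}
    {TT : ∀ S : Sp, MSys S (M + 1) (lin g) (Fin r) → Prop} {s : MSys S (M + 1) (lin g) (Fin r)}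

/-- boxes of one window over a member with frames in the closed range -/
theorem exists_bd (hT : Hom M Cl g r w ρ TT) (hs : TT S s) (P : Spl w d N)
    (HF : ∀ c, 0 ≤ c → w (Fin.last M) * c ≤ 1 → ∃ (Z : ∀ k, Setoid (S.F k).Ω)
      (f : Frm s.Q (Lab.ofZ Z) (fun j => w j * c)),
      s.IsKap c (Lab.ofZ fun k => Setoid.ker (bx f (dgb w) k)) ∧
      (∀ k ω j, ∀ b ∈ (fP f k ω j).support, ∑ i, b i ≤ dgb w) ∧
      io (α := fun _ => Fin (nc (M + 1) (dgb w)) → ℤ) (bx f (dgb w)) ≤ s.Q.dg (w (Fin.last M) * c)) (c : ℝ) :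
    ∃ B : BD S d N, B.Sft P.w ∧ (0 ≤ c → P.w P.z * c ≤ 1 →
      B.Ok (fun i => cq s.Q (P.bI i)) (fun j => cq s.Q (P.vI j)) P.w c ∧
        s.IsKap c (Lab.ofZ fun k => Setoid.ker (B.VK k)) ∧ io B.VK ≤ s.Q.dg (P.w P.z * c)) ∧
      (c = 0 → (∀ k ω ω', B.VK k ω = B.VK k ω') ∧ (∀ i, B.q0 i = 0) ∧ ∀ j, B.F j = 0) := by
  have hz : P.w P.z = w (Fin.last M) := by
    unfold Spl.w
    rw [P.hz]
  by_cases hc : c = 0
  · subst hc
    have e2 : io (tvg (S := S) (d := d) (fun j => cq s.Q (P.vI j))).VK ≤ s.Q.dg (P.w P.z * 0) := by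
      have e3 : io (tvg (S := S) (d := d) (fun j => cq s.Q (P.vI j))).VK = ⊥ := io_unit
      rw [e3]
      exact _root_.bot_le
    refine ⟨tvg (fun j => cq s.Q (P.vI j)), tvg_sft _ _, fun _ _ => ⟨tvg_ok _ _ _, ?_, e2⟩, fun _ =>
      ⟨fun _ _ _ => rfl, fun _ => rfl, fun _ => rfl⟩⟩
    have e0 : (fun k => Setoid.ker ((tvg (S := S) (d := d) (fun j => cq s.Q (P.vI j))).VK k)) = fun _ => ⊤ := by
      funext k
      ext ω ω'
      exact ⟨fun _ => trivial, fun _ => rfl⟩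
    rw [e0]
    exact kap_top (hT.con S s hs)
  by_cases hr : 0 ≤ c ∧ w (Fin.last M) * c ≤ 1
  · obtain ⟨Z, f, h2, h3, h4⟩ := HF c hr.1 hr.2
    have hc0 : 0 < c := lt_of_le_of_ne hr.1 (Ne.symm hc)
    have hL : ∀ i, 0 ≤ w i * c := fun i => mul_nonneg (zero_le_one.trans (hom_one_le hT i)) hr.1
    have hL1 : ∀ i, w i * c ≤ 1 := fun i =>
      (mul_le_mul_of_nonneg_right (hom_le_last hT i) hr.1).trans hr.2
    have h5 : io (bdOf (spe P) f (dgb w) hL).VK ≤ s.Q.dg (P.w P.z * c) := by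
      rw [hz]
      exact h4
    refine ⟨bdOf (spe P) f (dgb w) hL, ?_, fun _ _ => ⟨?_, h2, h5⟩, fun h => absurd h hc⟩
    · exact bdOf_sft (spe P) f (dgb w) hL w c hc0 (fun _ => rfl) (fun i => P.wb i) (fun j => P.wv j)
    · exact bdOf_ok (spe P) f (dgb w) hL w c hc0 (fun _ => rfl) (hom_one_le hT) hL1 h3 (fun i => P.wb i)
  · refine ⟨tvg (fun _ => 0), tvg_sft _ _, fun h0 h1 => ?_, fun h => absurd h hc⟩
    rw [hz] at h1
    exact absurd ⟨h0, h1⟩ hr

/-- the data of all boxes, in the real linear coordinates `A` of the base -/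
theorem exists_bdsw (hT : Hom M Cl g r w ρ TT) (hs : TT S s) (P : Spl w d N)
    (HF : ∀ c, 0 ≤ c → w (Fin.last M) * c ≤ 1 → ∃ (Z : ∀ k, Setoid (S.F k).Ω)
      (f : Frm s.Q (Lab.ofZ Z) (fun j => w j * c)),
      s.IsKap c (Lab.ofZ fun k => Setoid.ker (bx f (dgb w) k)) ∧
      (∀ k ω j, ∀ b ∈ (fP f k ω j).support, ∑ i, b i ≤ dgb w) ∧
      io (α := fun _ => Fin (nc (M + 1) (dgb w)) → ℤ) (bx f (dgb w)) ≤ s.Q.dg (w (Fin.last M) * c))
    (A : Matrix (Fin (d + 1)) (Fin (d + 1)) ℝ) (hA : IsUnit A.det) :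
    ∃ B : ℝ → BD S d N, (∀ c, 0 ≤ c → P.w P.z * c ≤ 1 → s.IsKap c (Lab.ofZ fun k => Setoid.ker ((B c).VK k))) ∧
      ∀ (r' g' : ℕ) (T : Fin r' → LT S d N g' (qA P A s.Q) (Rv P s.Q)),
        (∀ i c, 0 ≤ c → c ≤ 1 → ∀ X : ∀ k, Setoid (S.F k).Ω, PLe (fun k => fc (X k)) (pcd s.Q) →
          (∀ i0, PLe (fun k => fc (X k)) ((s.lf i0).win c)) → PLe (fun k => fc (X k)) (lw (T i).V (qA P A s.Q 0) c)) →
        (cdOf T (fun c => (B c).kb) (fun c => (B c).VK) (fun c => (B c).m) (fun c => (B c).G) (fun c => (B c).q0)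
          (fun c => (B c).F) (fun c => (B c).γ)).Bx P.w P.z := by
  have hz : P.w P.z = w (Fin.last M) := by
    unfold Spl.w
    rw [P.hz]
  choose B hB1 hB2 hB3 using exists_bd hT hs P HF
  have hBA : A⁻¹ * A = 1 := Matrix.nonsing_inv_mul A hA
  refine ⟨fun c => (B c).lin A A⁻¹, fun c h0 h1 => (hB2 c h0 h1).2.1, fun r' g' T hw => ?_⟩
  have hc1 : ∀ c, 0 ≤ c → P.w P.z * c ≤ 1 → c ≤ 1 := fun c h0 h1 => by
    have h2 : 1 * c ≤ P.w P.z * c := mul_le_mul_of_nonneg_right (P.wv P.z).le h0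
    linarith
  have hV : ∀ c, Bdd (B c).VK := fun c => (hB1 c).bdd
  refine cd_bx (w := P.w) (z := P.z) (P.wv P.z) (fun c => (B c).lin A A⁻¹) (fun c => BD.lin_sft A A⁻¹ P.wv (hB1 c)) (fun c h0 h1 => ?_)
    (hB3 0 rfl).1 (fun i => ?_) (fun j => ?_) (fun c c' h0 hc h1 => ?_) (fun c h0 h1 => ?_) T (fun i c h0 h1 => ?_)
  · exact BD.lin_ok A A⁻¹ hBA (hc1 c h0 h1) (hB1 c) (hB2 c h0 h1).1
  · show qm A (B 0).q0 i = 0
    unfold qm
    apply Finset.sum_eq_zero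
    intro j _
    rw [(hB3 0 rfl).2.1, mul_zero]
  · show MvPolynomial.bind₁ (sb A⁻¹) ((B 0).F j) = 0
    rw [(hB3 0 rfl).2.2, map_zero]
  · have h2 : P.w P.z * c ≤ 1 := by
      have h3 : P.w P.z * c ≤ P.w P.z * c' :=
        mul_le_mul_of_nonneg_left hc (zero_le_one.trans (P.wv P.z).le)
      linarith
    exact box_mono hc (hV c) (hV c') (hB2 c h0 h2).2.1 (hB2 c' (h0.trans hc) h1).2.1
  · show io (B c).VK ≤ _
    have h2 : io (B c).VK ≤ s.Q.dg (P.w P.z * c) := (hB2 c h0 h1).2.2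
    refine h2.trans ?_
    rw [Q_dg_eq s.Q h1]
    apply Finset.sup_le
    intro a _
    have h3 : vd (qA P A s.Q) (P.w P.z * c) = vd (fun i => cq s.Q (P.bI i)) (P.w P.z * c) :=
      qm_vd_eq hBA (fun i => cq s.Q (P.bI i)) h1
    rw [h3]
    rcases P.cov a with ⟨i, hi⟩ | ⟨j, hj⟩
    · rw [← hi]
      exact (dg_le_vd (fun i => cq s.Q (P.bI i)) _ i).trans le_sup_left
    · rw [← hj]
      exact (dg_le_vd (Rv P s.Q) _ j).trans le_sup_right
  · show KP (lw (T i).V (qA P A s.Q 0) c) (io (B c).VK)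
    have h2 : ∀ i0, PLe (fun k => fc (Setoid.ker ((B c).VK k))) ((s.lf i0).win c) := kap_win (hB2 c h0 h1).2.1
    have h3 : PLe (rp (io (B c).VK)) (fun k => fc (Setoid.ker ((B c).VK k))) := by
      rw [io_eq (hV c)]
      exact (rp_rpI _).1
    exact h3.trans (hw i c h0 (hc1 c h0 h1) (fun k => Setoid.ker ((B c).VK k)) (kap_pt (hB2 c h0 h1).2.1) h2)

/-- labels of the truncation which are literal are labels of the system -/
theorem dmc_of_trn {e : ℝ} {h0 : 0 < e} {h1 : e ≤ 1} {c : ℝ} {Z : ∀ k, Setoid (S.F k).Ω}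
    (h : (s.trn e h0 h1).IsKap c (Lab.ofZ (S := S.chg S.tr e h0) Z)) : s.DMc (e * c) (Lab.ofZ Z) := by
  have h2 : s.DMc (e * c) (untL (Lab.ofZ (S := S.chg S.tr e h0) Z)) := MSys.DMc.of_trn le_rfl h.1
  intro i
  have h3 := h2 i
  have e1 : (fun k => ((Lab.ofZ Z) k).leak (s.cnd (e * c) i k)) =
      fun k => ((untL (Lab.ofZ (S := S.chg S.tr e h0) Z)) k).leak (s.cnd (e * c) i k) := by
    funext k
    rw [leak_lit (Z := Z) rfl, leak_lit (Z := Z) rfl]
  rw [e1]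
  exact h3

/-- THE BOXES OF THE FIRST CORNER over the truncation of a member (closed range of scales) -/
theorem exists_boxesw (hT : Hom M Cl g r w ρ TT) (hs : TT S s) {e : ℝ} (h0 : 0 < e) (h1 : e < 1) (P : Spl w d N)
    (A : Matrix (Fin (d + 1)) (Fin (d + 1)) ℝ) (hA : IsUnit A.det) :
    ∃ B : ℝ → BD (S.chg S.tr e h0) d N, (∀ c, 0 ≤ c → P.w P.z * c ≤ 1 →
        (s.trn e h0 h1.le).IsKap c (Lab.ofZ (S := S.chg S.tr e h0) fun k => Setoid.ker ((B c).VK k)) ∧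
        s.DMc (e * c) (Lab.ofZ (S := S) fun k => Setoid.ker ((B c).VK k))) ∧
      ∀ (r' g' : ℕ) (T : Fin r' → LT (S.chg S.tr e h0) d N g' (qA P A (s.trn e h0 h1.le).Q)
          (Rv P (s.trn e h0 h1.le).Q)),
        (∀ i c, 0 ≤ c → c ≤ 1 → ∀ X : ∀ k, Setoid ((S.chg S.tr e h0).F k).Ω,
          PLe (S := S.chg S.tr e h0) (fun k => fc (X k)) (pcd (s.trn e h0 h1.le).Q) →
          (∀ i0, PLe (S := S.chg S.tr e h0) (fun k => fc (X k)) (((s.trn e h0 h1.le).lf i0).win c)) →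
          PLe (S := S.chg S.tr e h0) (fun k => fc (X k)) (lw (T i).V (qA P A (s.trn e h0 h1.le).Q 0) c)) →
        (cdOf T (fun c => (B c).kb) (fun c => (B c).VK) (fun c => (B c).m) (fun c => (B c).G) (fun c => (B c).q0)
          (fun c => (B c).F) (fun c => (B c).γ)).Bx P.w P.z := by
  obtain ⟨B, hB1, hB2⟩ := exists_bdsw hT (hT.trn S s hs e h0 h1.le) P (fun c hc hc1 => by
    obtain ⟨Z, f, a, b, -, a2⟩ := exists_frames hT hs h0 h1 hc hc1
    exact ⟨Z, f, a, b, a2⟩) A hA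
  exact ⟨B, fun c hc hc1 => ⟨hB1 c hc hc1, dmc_of_trn (hB1 c hc hc1)⟩, hB2⟩

/-- the same, the windows of the types are finer than windows of the member -/
theorem exists_boxes (hT : Hom M Cl g r w ρ TT) (hs : TT S s) {e : ℝ} (h0 : 0 < e) (h1 : e < 1) (P : Spl w d N)
    (A : Matrix (Fin (d + 1)) (Fin (d + 1)) ℝ) (hA : IsUnit A.det) :
    ∃ B : ℝ → BD (S.chg S.tr e h0) d N, (∀ c, 0 ≤ c → P.w P.z * c ≤ 1 →
        (s.trn e h0 h1.le).IsKap c (Lab.ofZ (S := S.chg S.tr e h0) fun k => Setoid.ker ((B c).VK k)) ∧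
        s.DMc (e * c) (Lab.ofZ (S := S) fun k => Setoid.ker ((B c).VK k))) ∧
      ∀ (r' g' : ℕ) (T : Fin r' → LT (S.chg S.tr e h0) d N g' (qA P A (s.trn e h0 h1.le).Q)
          (Rv P (s.trn e h0 h1.le).Q)),
        (∀ i, ∃ i0, ∀ c, 0 ≤ c → c ≤ 1 → PLe (((s.trn e h0 h1.le).lf i0).win c)
          (lw (T i).V (qA P A (s.trn e h0 h1.le).Q 0) c)) →
        (cdOf T (fun c => (B c).kb) (fun c => (B c).VK) (fun c => (B c).m) (fun c => (B c).G) (fun c => (B c).q0)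
          (fun c => (B c).F) (fun c => (B c).γ)).Bx P.w P.z := by
  obtain ⟨B, hB1, hB2⟩ := exists_boxesw hT hs h0 h1 P A hA
  refine ⟨B, hB1, fun r' g' T hw => hB2 r' g' T fun i c hc hc1 X _ h3 => ?_⟩
  obtain ⟨i0, hi⟩ := hw i
  exact (h3 i0).trans (hi c hc hc1)

end

end

end Pool.Agent.Helper91.BOX
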