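import Pool.Agent.Helper91.BOX.Cor
import Pool.Agent.Helper71.BLD.Trs
import Pool.Agent.Helper57.TA.Alg
import Pool.Agent.Helper50.BLD.Ltr

/-! LITERAL BOUNDED BOXES, part 8: real linear changes of the base coordinates. -/

set_option autoImplicit false

namespace Pool.Agent.Helper91.BOX

open Finset Filter Topology Pool.Agent.Helper69.RK Pool.Agent.Helper31.EC Pool.Agent.Helper31.EC.Sp
open Pool.Agent.Helper31.EC.QS
open Pool.Agent.Helper82.TP (Lit)
open Pool.Agent.Helper57.TA (wgt rcst)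
open Pool.Agent.Helper77.WDG (wt WLe WLt wLt_iff)
open Pool.Agent.Helper71.BLD (CB CB_C CB_X CB_bind)
open Pool.Agent.Helper50.BLD (LR mem_LR)

noncomputable section

variable {S : Sp} {d N : ℕ}

theorem lit_rcst {β : ℕ → Type} (V : ∀ k, (S.F k).Ω → β k) (a : ℝ) : Lit V (rcst S a) :=
  ⟨⟨fun _ _ => a, fun _ => |a|, S.Sub_const (abs_nonneg a), Eventually.of_forall fun _ _ _ => le_rfl⟩, rfl,
    Eventually.of_forall fun _ _ _ _ _ _ _ => rfl⟩

/-- the base in the coordinates `A` -/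
def qm (A : Matrix (Fin (d + 1)) (Fin (d + 1)) ℝ) (q : Fin (d + 1) → QS S) (i : Fin (d + 1)) : QS S :=
  ∑ j, rcst S (A i j) * q j

theorem qm_sub (A : Matrix (Fin (d + 1)) (Fin (d + 1)) ℝ) (q q' : Fin (d + 1) → QS S) (i : Fin (d + 1)) :
    qm A q i - qm A q' i = qm A (fun j => q j - q' j) i := by
  unfold qm
  rw [← Finset.sum_sub_distrib]
  exact Finset.sum_congr rfl fun j _ => by ring

theorem qm_mul (A B : Matrix (Fin (d + 1)) (Fin (d + 1)) ℝ) (q : Fin (d + 1) → QS S) (i : Fin (d + 1)) :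
    qm A (qm B q) i = qm (A * B) q i := by
  unfold qm
  have h1 : ∀ j, rcst S (A i j) * ∑ l, rcst S (B j l) * q l = ∑ l, rcst S (A i j) * rcst S (B j l) * q l := fun j => by
    rw [Finset.mul_sum]
    exact Finset.sum_congr rfl fun l _ => by ring
  rw [Finset.sum_congr rfl fun j _ => h1 j, Finset.sum_comm]
  refine Finset.sum_congr rfl fun l _ => ?_
  rw [← Finset.sum_mul, Matrix.mul_apply, map_sum]
  congr 1

theorem qm_one (q : Fin (d + 1) → QS S) (i : Fin (d + 1)) :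
    qm (1 : Matrix (Fin (d + 1)) (Fin (d + 1)) ℝ) q i = q i := by
  classical
  unfold qm
  rw [Finset.sum_eq_single i]
  · rw [Matrix.one_apply_eq, map_one, one_mul]
  · intro j _ hj
    rw [Matrix.one_apply_ne hj.symm, map_zero, zero_mul]
  · intro h
    exact absurd (Finset.mem_univ i) h

theorem dg_rcst' (c r : ℝ) (A : S.L) : dg (rcst S c) r ≤ A := by
  rw [Pool.Agent.Helper57.TA.dg_rcst]
  exact _root_.bot_le

theorem qm_vd (A : Matrix (Fin (d + 1)) (Fin (d + 1)) ℝ) (q : Fin (d + 1) → QS S) {r : ℝ} (hr : r ≤ 1) :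
    vd (qm A q) r ≤ vd q r := by
  rw [vd_le]
  intro i
  rw [← mem_Kn (hr := hr)]
  unfold qm
  refine Subring.sum_mem _ fun j _ => Subring.mul_mem _ ?_ ?_
  · rw [mem_Kn]
    exact dg_rcst' _ _ _
  · rw [mem_Kn]
    exact dg_le_vd q r j

theorem qm_vd_eq {A B : Matrix (Fin (d + 1)) (Fin (d + 1)) ℝ} (hBA : B * A = 1) (q : Fin (d + 1) → QS S) {r : ℝ}
    (hr : r ≤ 1) : vd (qm A q) r = vd q r := by
  apply le_antisymm (qm_vd A q hr)
  have h1 : q = qm B (qm A q) := by
    funext i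
    rw [qm_mul, hBA, qm_one]
  conv_lhs => rw [h1]
  exact qm_vd B _ hr

/-- the substitution -/
def sb (B : Matrix (Fin (d + 1)) (Fin (d + 1)) ℝ) : Fin (d + 1) ⊕ Fin N → MvPolynomial (Fin (d + 1) ⊕ Fin N) (QS S) :=
  Sum.elim (fun i => ∑ l, MvPolynomial.C (rcst S (B i l)) * MvPolynomial.X (Sum.inl l))
    fun j => MvPolynomial.X (Sum.inr j)

/-- the coefficients of the substituted polynomials -/
abbrev cix (F : Fin N → MvPolynomial (Fin (d + 1) ⊕ Fin N) (QS S)) : Type := Σ j : Fin N, {n // n ∈ (F j).support}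

instance (F : Fin N → MvPolynomial (Fin (d + 1) ⊕ Fin N) (QS S)) : Fintype (cix F) := inferInstance

namespace BD

/-- THE CHANGE of the base coordinates by `A`, `B` is the inverse -/
def lin (D : BD S d N) (A B : Matrix (Fin (d + 1)) (Fin (d + 1)) ℝ) : BD S d N where
  kb := D.kb
  VK := D.VK
  m := Fintype.card (Fin D.m ⊕ (Fin (d + 1) ⊕ cix fun j => MvPolynomial.bind₁ (sb B) (D.F j)))
  G := fun x => Sum.elim D.G (Sum.elim (qm A D.q0) fun y =>
    (MvPolynomial.bind₁ (sb B) (D.F y.1)).coeff y.2.1) ((Fintype.equivFin _).symm x)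
  q0 := qm A D.q0
  F := fun j => MvPolynomial.bind₁ (sb B) (D.F j)
  γ := D.γ

variable (D : BD S d N) (A B : Matrix (Fin (d + 1)) (Fin (d + 1)) ℝ)

theorem lin_G (x : Fin D.m ⊕ (Fin (d + 1) ⊕ cix fun j => MvPolynomial.bind₁ (sb B) (D.F j))) :
    ∃ a, (D.lin A B).G a = Sum.elim D.G (Sum.elim (qm A D.q0) fun y =>
      (MvPolynomial.bind₁ (sb B) (D.F y.1)).coeff y.2.1) x :=
  ⟨Fintype.equivFin _ x, by
    show Sum.elim D.G _ ((Fintype.equivFin _).symm (Fintype.equivFin _ x)) = _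
    rw [Equiv.symm_apply_apply]⟩

theorem lit_qm {D : BD S d N} {w : Fin N → ℝ} (h : D.Sft w) (i : Fin (d + 1)) : Lit D.VK (qm A D.q0 i) := by
  rw [← mem_LR]
  unfold qm
  exact Subring.sum_mem _ fun j _ => Subring.mul_mem _ (lit_rcst _ _) (h.litq j)

theorem lit_bind {D : BD S d N} {w : Fin N → ℝ} (h : D.Sft w) (j : Fin N) (n : Fin (d + 1) ⊕ Fin N →₀ ℕ) :
    Lit D.VK ((MvPolynomial.bind₁ (sb B) (D.F j)).coeff n) := by
  have h1 : MvPolynomial.bind₁ (sb B) (D.F j) ∈ CB (Fin (d + 1) ⊕ Fin N) (LR D.VK) := by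
    have h2 : D.F j ∈ CB (Fin (d + 1) ⊕ Fin N) (LR D.VK) := h.litF j
    apply CB_bind h2
    rintro (i | i) _
    · have h3 : ∀ l, (MvPolynomial.C (rcst S (B i l)) * MvPolynomial.X (Sum.inl l) :
          MvPolynomial (Fin (d + 1) ⊕ Fin N) (QS S)) ∈ CB (Fin (d + 1) ⊕ Fin N) (LR D.VK) := fun l =>
        Subring.mul_mem _ (CB_C (mem_LR.mpr (lit_rcst _ _))) (CB_X _ _)
      show (∑ l, MvPolynomial.C (rcst S (B i l)) * MvPolynomial.X (Sum.inl l) :
          MvPolynomial (Fin (d + 1) ⊕ Fin N) (QS S)) ∈ CB (Fin (d + 1) ⊕ Fin N) (LR D.VK)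
      exact Subring.sum_mem _ fun l _ => h3 l
    · exact CB_X (LR D.VK) (Sum.inr i)
  exact h1 n

theorem sb_wle (w : Fin N → ℝ) (i : Fin (d + 1) ⊕ Fin N) :
    WLe (Sum.elim (fun _ => 1) w) (Sum.elim (fun _ => (1 : ℝ)) w i) (sb (S := S) B i) := by
  rcases i with i | i
  · show WLe (Sum.elim (fun _ => (1 : ℝ)) w) 1
      (∑ l, MvPolynomial.C (rcst S (B i l)) * MvPolynomial.X (Sum.inl l) : MvPolynomial (Fin (d + 1) ⊕ Fin N) (QS S))
    exact WLe.sum _ _ fun l _ => WLe.C_mul (WLe.X (by rw [Sum.elim_inl])) _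
  · show WLe (Sum.elim (fun _ => (1 : ℝ)) w) (w i) (MvPolynomial.X (Sum.inr i) : MvPolynomial (Fin (d + 1) ⊕ Fin N) (QS S))
    exact WLe.X (by rw [Sum.elim_inr])

theorem lin_sft {D : BD S d N} {w : Fin N → ℝ} (hw : ∀ j, 1 < w j) (h : D.Sft w) : (D.lin A B).Sft w where
  bdd := h.bdd
  lit := fun a => by
    show Lit D.VK (Sum.elim D.G _ ((Fintype.equivFin _).symm a))
    rcases (Fintype.equivFin (Fin D.m ⊕ (Fin (d + 1) ⊕ cix fun j => MvPolynomial.bind₁ (sb B) (D.F j)))).symm a with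
      a | a | a
    · exact h.lit a
    · exact lit_qm A h a
    · exact lit_bind B h _ _
  deg := fun j n hn => by
    have h1 : WLt (Sum.elim (fun _ => (1 : ℝ)) w) (w j) (D.F j) := by
      rw [wLt_iff (lt_trans one_pos (hw j))]
      intro a ha _
      exact h.deg j a (MvPolynomial.mem_support_iff.mp ha)
    have h2 := h1.bind (sb B) (v := Sum.elim (fun _ => (1 : ℝ)) w) fun i _ => sb_wle B w i
    rw [wLt_iff (lt_trans one_pos (hw j))] at h2
    by_cases h0 : n = 0
    · rw [h0]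
      unfold wgt
      simp only [Finsupp.coe_zero, Pi.zero_apply, Nat.cast_zero, zero_mul, Finset.sum_const_zero]
      exact lt_trans one_pos (hw j)
    · exact h2 n (MvPolynomial.mem_support_iff.mpr hn) h0
  litq := lit_qm A h
  litF := lit_bind B h
  gq := fun i _ => by
    obtain ⟨a, ha⟩ := lin_G D A B (Sum.inr (Sum.inl i))
    exact ⟨a, ha.symm⟩
  gF := fun j n hn => by
    obtain ⟨a, ha⟩ := lin_G D A B (Sum.inr (Sum.inr ⟨j, n, MvPolynomial.mem_support_iff.mpr hn⟩))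
    exact ⟨a, ha.symm⟩

theorem lin_ok {D : BD S d N} {w : Fin N → ℝ} {c : ℝ} {q : Fin (d + 1) → QS S} {R : Fin N → QS S}
    (hBA : B * A = 1) (hc : c ≤ 1) (h : D.Sft w) (ho : D.Ok q R w c) :
    (D.lin A B).Ok (qm A q) R w c where
  gen := by
    apply le_antisymm
    · show io D.VK ≤ _
      rw [ho.gen, vd_le]
      intro a
      obtain ⟨b, hb⟩ := lin_G D A B (Sum.inl a)
      have h1 := dg_le_vd (D.lin A B).G 1 b
      rw [hb] at h1
      exact h1
    · rw [vd_le]
      intro a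
      have h1 : Lit D.VK ((D.lin A B).G a) := by
        show Lit D.VK (Sum.elim D.G _ ((Fintype.equivFin _).symm a))
        rcases (Fintype.equivFin (Fin D.m ⊕ (Fin (d + 1) ⊕ cix fun j => MvPolynomial.bind₁ (sb B) (D.F j)))).symm a with
          a | a | a
        · exact h.lit a
        · exact lit_qm A h a
        · exact lit_bind B h _ _
      exact h1.dg_le h.bdd le_rfl
  fq := fun i => by
    show qm A q i - qm A D.q0 i ∈ Id S c
    rw [qm_sub]
    unfold qm
    exact (Id S c).sum_mem fun j _ => (Id S c).mul_mem_left _ (ho.fq j)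
  fγ := ho.fγ
  fR := fun j => by
    have h1 := ho.fR j
    show R j = MvPolynomial.eval (Sum.elim (fun i => qm A q i - qm A D.q0 i) D.γ)
      (MvPolynomial.bind₁ (sb B) (D.F j)) + D.γ j
    rw [h1]
    congr 1
    rw [Pool.Agent.Helper71.BLD.eval_bind]
    congr 2
    funext x
    rcases x with i | i
    · have h2 : MvPolynomial.eval (Sum.elim (fun i => qm A q i - qm A D.q0 i) D.γ) (sb B (Sum.inl i)) =
          qm B (qm A fun j => q j - D.q0 j) i := by
        show MvPolynomial.eval _ (∑ l, MvPolynomial.C (rcst S (B i l)) * MvPolynomial.X (Sum.inl l)) = _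
        rw [map_sum]
        refine Finset.sum_congr rfl fun l _ => ?_
        rw [map_mul, MvPolynomial.eval_C, MvPolynomial.eval_X, Sum.elim_inl, qm_sub]
      rw [h2, qm_mul, hBA, qm_one, Sum.elim_inl]
    · show Sum.elim _ D.γ (Sum.inr i) = MvPolynomial.eval _ (MvPolynomial.X (Sum.inr i))
      rw [MvPolynomial.eval_X, Sum.elim_inr, Sum.elim_inr]

end BD

end

end Pool.Agent.Helper91.BOX
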