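import Pool.Agent.Helper91.BOX.Trn
import Pool.Agent.Helper13.AM.Cor

/-! LITERAL BOUNDED BOXES, part 6: levels. The digits of the coordinates of the point up to the level `t`; the numbers
over the box with the base coordinates known. -/

set_option autoImplicit false

namespace Pool.Agent.Helper91.BOX

open Finset Filter Topology Pool.Agent.Helper69.RK Pool.Agent.Helper31.EC Pool.Agent.Helper31.EC.Sp
open Pool.Agent.Helper40.EL Pool.Agent.Helper3.LF Pool.Agent.Helper84.MT Pool.Agent.Helper36.AM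
open Pool.Agent.Helper31.EC.QS
open Pool.Agent.Helper5.HB (cq)

noncomputable section

variable {S : Sp}

/-! ### chains in subfamilies -/

theorem chain_gen {N : ℕ} (y : Fin N → S.L) (b : Fin N → ℝ) (s : Finset (Fin N)) (C : S.L)
    (hb : ∀ i ∈ s, h (y i) ((s.filter fun j => j < i).sup y ⊔ C) ≤ b i) : h (s.sup y) C ≤ ∑ i ∈ s, b i := by
  classical
  have key : ∀ t : ℕ, t ≤ N → h ((s.filter fun j : Fin N => (j : ℕ) < t).sup y) C ≤
      ∑ i ∈ s.filter (fun j : Fin N => (j : ℕ) < t), b i := by
    intro t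
    induction t with
    | zero =>
      intro _
      have h1 : (s.filter fun j : Fin N => (j : ℕ) < 0) = ∅ := by
        apply Finset.filter_false_of_mem
        intro i _
        exact Nat.not_lt_zero _
      rw [h1, Finset.sup_empty, Finset.sum_empty]
      exact (h_zero _root_.bot_le).le
    | succ t ih =>
      intro ht
      by_cases hts : (⟨t, ht⟩ : Fin N) ∈ s
      · have h1 : (s.filter fun j : Fin N => (j : ℕ) < t + 1) =
            insert (⟨t, ht⟩ : Fin N) (s.filter fun j : Fin N => (j : ℕ) < t) := by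
          ext i
          rw [Finset.mem_insert, Finset.mem_filter, Finset.mem_filter]
          constructor
          · rintro ⟨h2, h3⟩
            rcases Nat.lt_succ_iff_lt_or_eq.mp h3 with h4 | h4
            · exact Or.inr ⟨h2, h4⟩
            · exact Or.inl (Fin.ext h4)
          · rintro (h2 | ⟨h2, h3⟩)
            · rw [h2]
              exact ⟨hts, Nat.lt_succ_self t⟩
            · exact ⟨h2, Nat.lt_succ_of_lt h3⟩
        have h2 : (⟨t, ht⟩ : Fin N) ∉ s.filter fun j : Fin N => (j : ℕ) < t := by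
          rw [Finset.mem_filter]
          exact fun h => lt_irrefl _ h.2
        rw [h1, Finset.sup_insert, Finset.sum_insert h2, sup_comm, h_chain]
        have h3 := ih (by omega)
        have h4 := hb ⟨t, ht⟩ hts
        have h5 : (s.filter fun j : Fin N => j < ⟨t, ht⟩) = s.filter fun j : Fin N => (j : ℕ) < t := rfl
        rw [h5] at h4
        linarith
      · have h1 : (s.filter fun j : Fin N => (j : ℕ) < t + 1) = s.filter fun j : Fin N => (j : ℕ) < t := by
          apply Finset.filter_congr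
          intro i hi
          constructor
          · intro h3
            rcases Nat.lt_succ_iff_lt_or_eq.mp h3 with h4 | h4
            · exact h4
            · exact absurd (show (⟨t, ht⟩ : Fin N) ∈ s by rwa [show (⟨t, ht⟩ : Fin N) = i from Fin.ext h4.symm]) hts
          · exact fun h3 => Nat.lt_succ_of_lt h3
        rw [h1]
        exact ih (by omega)
  have h1 : (s.filter fun j : Fin N => (j : ℕ) < N) = s := by
    apply Finset.filter_true_of_mem
    intro i _
    exact i.2
  have h2 := key N le_rfl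
  rw [h1] at h2
  exact h2

/-- TIGHTNESS: if the whole family is full, then lower sets are full, and the rest is full over them -/
theorem chain_tight {N : ℕ} (y : Fin N → S.L) (A : S.L) (b : Fin N → ℝ)
    (hb : ∀ i, h (y i) ((univ.filter fun j => j < i).sup y ⊔ A) ≤ b i) (hl : ∑ i, b i ≤ h (univ.sup y) A)
    (s : Finset (Fin N)) (hs : ∀ i ∈ s, ∀ j, j < i → j ∈ s) :
    h (s.sup y) A = ∑ i ∈ s, b i ∧ h (sᶜ.sup y) (s.sup y ⊔ A) = ∑ i ∈ sᶜ, b i := by
  classical
  have h1 : h (s.sup y) A ≤ ∑ i ∈ s, b i := by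
    apply chain_gen
    intro i hi
    have h2 : (univ.filter fun j => j < i) = s.filter fun j => j < i := by
      ext j
      rw [Finset.mem_filter, Finset.mem_filter]
      exact ⟨fun h => ⟨hs i hi j h.2, h.2⟩, fun h => ⟨Finset.mem_univ _, h.2⟩⟩
    rw [← h2]
    exact hb i
  have h2 : h (sᶜ.sup y) (s.sup y ⊔ A) ≤ ∑ i ∈ sᶜ, b i := by
    apply chain_gen
    intro i hi
    refine (h_anti ?_).trans (hb i)
    refine _root_.sup_le ?_ (le_sup_right.trans le_sup_right)
    apply Finset.sup_le
    intro j hj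
    have hji : j < i := (Finset.mem_filter.mp hj).2
    by_cases hjs : j ∈ s
    · exact ((Finset.le_sup (f := y) hjs).trans le_sup_left).trans le_sup_right
    · exact (Finset.le_sup (f := y) (Finset.mem_filter.mpr ⟨Finset.mem_compl.mpr hjs, hji⟩)).trans le_sup_left
  have h3 : univ.sup y = s.sup y ⊔ sᶜ.sup y := by
    rw [← Finset.sup_union, Finset.union_compl]
  have h4 := h_chain (s.sup y) (sᶜ.sup y) A
  rw [← h3] at h4
  have h5 := Finset.sum_add_sum_compl s b
  exact ⟨by linarith, by linarith⟩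

/-! ### digits of level `t` -/

variable {M : ℕ} {Q : S.VV M} {Z : ∀ k, Setoid (S.F k).Ω} {La : Fin M → ℝ} {t : ℝ}

theorem pu_dgt (f : Frm Q (Lab.ofZ Z) La) (D : ℕ) (hL : ∀ i, 0 ≤ La i) (ht : t ≤ 1) (j : Fin M) :
    dg (mk (puT f D hL j)) t ≤ (univ.filter fun i => i < j).sup (fun i => dg (fu f hL i) t) ⊔ bL f D := by
  classical
  rw [← mem_Kn (hr := ht)]
  unfold puT
  rw [map_sum]
  refine Subring.sum_mem _ fun a _ => ?_
  by_cases hz : ∃ i, ¬ i < j ∧ (a.1 i : ℕ) ≠ 0
  · obtain ⟨i, h1, h2⟩ := hz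
    rw [rcT_zero f D h1 a h2, zero_mul, map_zero]
    exact Subring.zero_mem _
  · push Not at hz
    rw [map_mul, map_prod]
    apply Subring.mul_mem
    · rw [mem_Kn, dg_mk _ ht]
      exact (rcT_dg f D j a t).trans le_sup_right
    · refine Subring.prod_mem _ fun i _ => ?_
      rw [map_pow]
      by_cases hi : i < j
      · apply Subring.pow_mem
        rw [mem_Kn]
        refine le_trans ?_ le_sup_left
        exact Finset.le_sup (f := fun i => dg (fu f hL i) t) (Finset.mem_filter.mpr ⟨Finset.mem_univ _, hi⟩)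
      · rw [hz i (not_lt.mp hi), pow_zero]
        exact Subring.one_mem _

theorem fu_dgt (f : Frm Q (Lab.ofZ Z) La) (D : ℕ) (hL : ∀ i, 0 ≤ La i)
    (hD : ∀ k ω j, ∀ b ∈ (fP f k ω j).support, ∑ i, b i ≤ D) (ht : t ≤ 1) (j : Fin M) :
    dg (fu f hL j) t ≤ (univ.filter fun i => i ≤ j).sup (fun i => dg (cq Q i) t) ⊔ bL f D := by
  classical
  have key : ∀ (n : ℕ) (j : Fin M), (j : ℕ) = n →
      dg (fu f hL j) t ≤ (univ.filter fun i => i ≤ j).sup (fun i => dg (cq Q i) t) ⊔ bL f D := by
    intro n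
    induction n using Nat.strong_induction_on with
    | _ n ih =>
      intro j hj
      have h1 : fu f hL j = cq Q j - mk (puT f D hL j) := by
        rw [cq_eq f D hL hD j, add_sub_cancel_left]
      rw [h1]
      refine (dg_sub_le _ _ ht).trans (_root_.sup_le ?_ ((pu_dgt f D hL ht j).trans (_root_.sup_le ?_ le_sup_right)))
      · refine le_trans ?_ le_sup_left
        exact Finset.le_sup (f := fun i => dg (cq Q i) t) (Finset.mem_filter.mpr ⟨Finset.mem_univ _, le_rfl⟩)
      · apply Finset.sup_le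
        intro i hi
        have hij : i < j := (Finset.mem_filter.mp hi).2
        refine (ih i (hj ▸ hij) i rfl).trans (_root_.sup_le (le_trans ?_ le_sup_left) le_sup_right)
        apply Finset.sup_mono
        intro l hl
        rw [Finset.mem_filter] at hl ⊢
        exact ⟨hl.1, hl.2.trans hij.le⟩
  exact key j j rfl

theorem pu_dgt' (f : Frm Q (Lab.ofZ Z) La) (D : ℕ) (hL : ∀ i, 0 ≤ La i)
    (hD : ∀ k ω j, ∀ b ∈ (fP f k ω j).support, ∑ i, b i ≤ D) (ht : t ≤ 1) (j : Fin M) :
    dg (mk (puT f D hL j)) t ≤ (univ.filter fun i => i < j).sup (fun i => dg (cq Q i) t) ⊔ bL f D := by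
  classical
  refine (pu_dgt f D hL ht j).trans (_root_.sup_le ?_ le_sup_right)
  apply Finset.sup_le
  intro i hi
  have hij : i < j := (Finset.mem_filter.mp hi).2
  refine (fu_dgt f D hL hD ht i).trans (_root_.sup_le (le_trans ?_ le_sup_left) le_sup_right)
  apply Finset.sup_mono
  intro l hl
  rw [Finset.mem_filter] at hl ⊢
  exact ⟨hl.1, lt_of_le_of_lt hl.2 hij⟩

/-- the first digits of the coordinate `j` are known to the box and the digits of level `t` of the coordinates before
`j` -/
theorem cq_dgt (f : Frm Q (Lab.ofZ Z) La) (D : ℕ) (hL : ∀ i, 0 ≤ La i)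
    (hD : ∀ k ω j, ∀ b ∈ (fP f k ω j).support, ∑ i, b i ≤ D) (ht : t ≤ 1) (j : Fin M) (h1 : La j ≤ t) :
    dg (cq Q j) (La j) ≤ (univ.filter fun i => i < j).sup (fun i => dg (cq Q i) t) ⊔ bL f D := by
  have h2 : cq Q j - mk (puT f D hL j) ∈ Id S (La j) := by
    rw [cq_eq f D hL hD j, add_sub_cancel_left]
    exact fu_Id f hL j (h1.trans ht)
  rw [dg_eq_of_sub_mem h2 le_rfl (h1.trans ht)]
  exact (dg_mono _ h1).trans (pu_dgt' f D hL hD ht j)

/-! ### the numbers with the base coordinates known -/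

/-- INPUT: the coordinates of the point over the box `K` of the window `c` -/
structure BKn (Q : S.VV (M + 1)) (w : Fin (M + 1) → ℝ) (c : ℝ) (K : S.L) : Prop where
  w1 : ∀ i, 1 ≤ w i
  mono : Monotone w
  c0 : 0 ≤ c
  c1 : w (Fin.last M) * c ≤ 1
  low : ∀ j, dg (cq Q j) (w j * c) ≤
    (univ.filter fun i => i < j).sup (fun i => dg (cq Q i) (w (Fin.last M) * c)) ⊔ K
  num : h (cel2L Q (Fin.last M) 1 (w (Fin.last M) * c)) K = ∑ j : Fin M, (1 - w j.castSucc * c)

namespace BKn

variable {Q : S.VV (M + 1)} {w : Fin (M + 1) → ℝ} {c : ℝ} {K : S.L} (B : BKn Q w c K)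

include B

theorem wc (i : Fin (M + 1)) : w i * c ≤ w (Fin.last M) * c :=
  mul_le_mul_of_nonneg_right (B.mono (Fin.le_last i)) B.c0

/-- fullness for all levels: `τ i ≥ w_last c`, the last coordinate at the level `w_last c` -/
theorem full (τ : Fin (M + 1) → ℝ) (h0 : ∀ i, w (Fin.last M) * c ≤ τ i) (h1 : ∀ i, τ i ≤ 1)
    (hz : τ (Fin.last M) = w (Fin.last M) * c) (s : Finset (Fin (M + 1))) (hs : ∀ i ∈ s, ∀ j, j < i → j ∈ s) :
    h (s.sup fun i => dg (cq Q i) (τ i)) K = ∑ i ∈ s, (τ i - w i * c) ∧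
      h (sᶜ.sup fun i => dg (cq Q i) (τ i)) ((s.sup fun i => dg (cq Q i) (τ i)) ⊔ K) =
        ∑ i ∈ sᶜ, (τ i - w i * c) := by
  classical
  apply chain_tight
  · intro i
    have h2 : dg (cq Q i) (w i * c) ≤
        (univ.filter fun j => j < i).sup (fun j => dg (cq Q j) (τ j)) ⊔ K := by
      refine (B.low i).trans (_root_.sup_le (le_trans ?_ le_sup_left) le_sup_right)
      apply Finset.sup_mono_fun
      intro j _
      exact dg_mono _ (h0 j)
    exact (h_anti h2).trans (h_dg_dg _ ((B.wc i).trans (h0 i)))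
  · -- lower bound from the number
    have h2 : cel2L Q (Fin.last M) 1 (w (Fin.last M) * c) ≤
        (univ.sup fun i => dg (cq Q i) (τ i)) ⊔ (univ.filter fun j => j < Fin.last M).sup (fun j => dg (cq Q j) 1) := by
      unfold cel2L
      refine _root_.sup_le ?_ ((ozr_dg_eq Q le_rfl).trans le_sup_right)
      rw [Q_dg_eq Q B.c1]
      refine le_trans ?_ le_sup_left
      apply Finset.sup_mono_fun
      intro j _
      exact dg_mono _ (h0 j)
    have h3 := h_mono (B := K) h2
    rw [B.num, h_chain] at h3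
    have h4 : h ((univ.filter fun j => j < Fin.last M).sup fun j => dg (cq Q j) 1)
        ((univ.sup fun i => dg (cq Q i) (τ i)) ⊔ K) ≤
          ∑ i ∈ univ.filter (fun j => j < Fin.last M), (1 - τ i) := by
      apply chain_gen
      intro i _
      refine (h_anti ?_).trans (h_dg_dg (cq Q i) (h1 i))
      refine le_trans ?_ le_sup_right
      exact (Finset.le_sup (f := fun i => dg (cq Q i) (τ i)) (Finset.mem_univ i)).trans le_sup_left
    have h5 : ∑ i ∈ univ.filter (fun j => j < Fin.last M), (1 - τ i) = ∑ i : Fin M, (1 - τ i.castSucc) := by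
      have h6 : ∑ i : Fin (M + 1), (if i < Fin.last M then (1 - τ i) else 0) =
          ∑ i ∈ univ.filter (fun j => j < Fin.last M), (1 - τ i) := (Finset.sum_filter _ _).symm
      rw [← h6, Fin.sum_univ_castSucc, if_neg (lt_irrefl _), add_zero]
      exact Finset.sum_congr rfl fun i _ => if_pos (Fin.castSucc_lt_last i)
    rw [h5] at h4
    rw [Fin.sum_univ_castSucc, hz, sub_self, add_zero]
    have h7 : ∑ j : Fin M, (1 - w j.castSucc * c) - ∑ i : Fin M, (1 - τ i.castSucc) =
        ∑ i : Fin M, (τ i.castSucc - w i.castSucc * c) := by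
      rw [← Finset.sum_sub_distrib]
      exact Finset.sum_congr rfl fun i _ => by ring
    linarith
  · exact hs

end BKn

/-- the input from a frame and a member of a homogeneous class -/
theorem bkn_of_hom {Cl : MCl (M + 1)} {g r : ℕ} {w : Fin (M + 1) → ℝ} {ρ : ℝ}
    {TT : ∀ S : Sp, MSys S (M + 1) (lin g) (Fin r) → Prop} (hT : Hom M Cl g r w ρ TT)
    {s : MSys S (M + 1) (lin g) (Fin r)} (hs : TT S s) {c : ℝ} (h0 : 0 ≤ c) (h1 : w (Fin.last M) * c < 1)
    (f : Frm s.Q (Lab.ofZ Z) (fun j => w j * c)) (hD : ∀ k ω j, ∀ b ∈ (fP f k ω j).support, ∑ i, b i ≤ dgb w)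
    (hK : s.IsKap c (Lab.ofZ fun k => Setoid.ker (bx f (dgb w) k))) : BKn s.Q w c (bL f (dgb w)) where
  w1 := hom_one_le hT
  mono := hT.mono
  c0 := h0
  c1 := h1.le
  low := fun j => cq_dgt f (dgb w) (fun i => mul_nonneg (zero_le_one.trans (hom_one_le hT i)) h0) hD h1.le j
    (mul_le_mul_of_nonneg_right (hom_le_last hT j) h0)
  num := by
    have h2 := num_box hT hs (bx_bdd f (dgb w)) hK h0 h1 le_rfl h1.le le_rfl
    rw [sub_self, mul_zero, add_zero] at h2
    exact h2

end

end Pool.Agent.Helper91.BOX
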