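import Pool.Agent.Helper91.BOX.Box

/-! LITERAL BOUNDED BOXES, part 4: the numbers over the boxes in the entropy lattice; the box is known to the cells of
level `w_last c` of the point; boxes are monotone; digits of the coordinates of the frame. -/

set_option autoImplicit false

namespace Pool.Agent.Helper91.BOX

open Finset Filter Topology Pool.Agent.Helper69.RK Pool.Agent.Helper31.EC Pool.Agent.Helper31.EC.Sp
open Pool.Agent.Helper40.EL Pool.Agent.Helper3.LF Pool.Agent.Helper84.MT Pool.Agent.Helper36.AM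
open Pool.Agent.Helper31.EC.QS
open Pool.Agent.Helper5.HB (cq)
open Pool.Agent.Helper33.LIT

noncomputable section

variable {S : Sp} {M : ℕ} {Cl : MCl (M + 1)} {g r : ℕ} {w : Fin (M + 1) → ℝ} {ρ : ℝ}
    {TT : ∀ S : Sp, MSys S (M + 1) (lin g) (Fin r) → Prop} {s : MSys S (M + 1) (lin g) (Fin r)} {c : ℝ}
    {α : ℕ → Type} {V : ∀ k, (S.F k).Ω → α k}

/-- THE NUMBERS over the box, in the entropy lattice -/
theorem num_box (hT : Hom M Cl g r w ρ TT) (hs : TT S s) (hV : Bdd V)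
    (hK : s.IsKap c (Lab.ofZ fun k => Setoid.ker (V k))) (h0 : 0 ≤ c) (hlt : w (Fin.last M) * c < 1) {a b : ℝ}
    (h1 : w (Fin.last M) * c ≤ b) (h2 : b ≤ a) (h3 : a ≤ 1) : h (cel2L s.Q (Fin.last M) a b) (io V) =
      ∑ j : Fin M, (a - w j.castSucc * c) + (1 - ρ) * (b - w (Fin.last M) * c) := by
  have h4 := hom_num_s hT hs h0 hlt h1 h2 h3 hK
  have h5 : (fun k => h (cel2 s.Q (Fin.last M) a b k) (fc (Setoid.ker (V k))) / (S.F k).n) =
      S.rt (cel2I s.Q (Fin.last M) a b).1 hV.toInf.1 := by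
    funext k
    rw [cel2_rpI]
    exact h_rpI (cel2I s.Q (Fin.last M) a b) hV.toInf k
  rw [h5] at h4
  rw [← cl_cel2I, io_eq hV, h_cl]
  exact ul_eq h4

/-- the numbers of the point -/
theorem num_pt (hT : Hom M Cl g r w ρ TT) (hs : TT S s) {a b : ℝ} (h1 : 0 ≤ b) (h2 : b ≤ a) (h3 : a ≤ 1) :
    H (cel2L s.Q (Fin.last M) a b) = M * a + (1 - ρ) * b := H_cel2L _ _ _ _ _ (hom_num0 hT hs h1 h2 h3)

/-- the box is known to the point -/
theorem box_le_pt (hV : Bdd V) (hK : s.IsKap c (Lab.ofZ fun k => Setoid.ker (V k))) : io V ≤ s.Q.dg 1 := by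
  have h2 := kap_pt hK
  have h3 : PLe (rpI hV.toInf) (rpI (s.Q.bdd 1).toInf) := h2
  rw [PLe_rpI] at h3
  unfold VV.dg
  rwa [io_eq hV, io_eq (s.Q.bdd 1)]

/-- the entropy of the box -/
theorem H_kap (hT : Hom M Cl g r w ρ TT) (hs : TT S s) (hV : Bdd V)
    (hK : s.IsKap c (Lab.ofZ fun k => Setoid.ker (V k))) (h0 : 0 ≤ c) (h1 : w (Fin.last M) * c < 1) :
    H (io V) = (∑ j : Fin M, w j.castSucc + (1 - ρ) * w (Fin.last M)) * c := by
  have h2 := num_box hT hs hV hK h0 h1 h1.le le_rfl le_rfl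
  rw [cel2L_self] at h2
  have h3 := box_le_pt hV hK
  have h4 : h (s.Q.dg 1) (io V) = H (s.Q.dg 1 ⊔ io V) - H (io V) := rfl
  rw [sup_eq_left.mpr h3, h2, H_pt hT hs, Finset.sum_sub_distrib, ← Finset.sum_mul] at h4
  simp only [Finset.sum_const, Finset.card_univ, Fintype.card_fin, nsmul_eq_mul, mul_one] at h4
  linarith

/-- THE BOX IS KNOWN TO THE CELLS OF LEVEL `w_last c` of the point -/
theorem box_le_cell (hT : Hom M Cl g r w ρ TT) (hs : TT S s) (hV : Bdd V)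
    (hK : s.IsKap c (Lab.ofZ fun k => Setoid.ker (V k))) (h0 : 0 ≤ c) (hlt : w (Fin.last M) * c < 1) {e : ℝ}
    (h1 : w (Fin.last M) * c ≤ e) (h2 : e ≤ 1) : io V ≤ s.Q.dg e := by
  have hw : 0 ≤ w (Fin.last M) * c := mul_nonneg (zero_le_one.trans (hom_one_le hT _)) h0
  have h3 := num_box hT hs hV hK h0 hlt h1 le_rfl h2
  have h4 := num_pt hT hs (hw.trans h1) le_rfl h2
  have h5 := H_kap hT hs hV hK h0 hlt
  rw [cel2L_self] at h3 h4
  rw [← h_le_zero_iff]
  have h6 : h (s.Q.dg e) (io V) = H (s.Q.dg e ⊔ io V) - H (io V) := rfl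
  have h7 : h (io V) (s.Q.dg e) = H (io V ⊔ s.Q.dg e) - H (s.Q.dg e) := rfl
  rw [h7, sup_comm]
  rw [h3, h5, Finset.sum_sub_distrib, ← Finset.sum_mul] at h6
  simp only [Finset.sum_const, Finset.card_univ, Fintype.card_fin, nsmul_eq_mul] at h6
  rw [h4]
  linarith

/-- boxes are monotone -/
theorem box_mono {c' : ℝ} (hc : c ≤ c') {β : ℕ → Type} {V' : ∀ k, (S.F k).Ω → β k} (hV : Bdd V) (hV' : Bdd V')
    (hK : s.IsKap c (Lab.ofZ fun k => Setoid.ker (V k))) (hK' : s.IsKap c' (Lab.ofZ fun k => Setoid.ker (V' k))) :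
    io V ≤ io V' := by
  have h3 : PLe (rpI hV.toInf) (rpI hV'.toInf) := kap_mono hc hK hK'
  rw [PLe_rpI] at h3
  rwa [io_eq hV, io_eq hV']

/-- two boxes of the same window -/
theorem box_uniq {β : ℕ → Type} {V' : ∀ k, (S.F k).Ω → β k} (hV : Bdd V) (hV' : Bdd V')
    (hK : s.IsKap c (Lab.ofZ fun k => Setoid.ker (V k))) (hK' : s.IsKap c (Lab.ofZ fun k => Setoid.ker (V' k))) :
    io V = io V' := le_antisymm (box_mono le_rfl hV hV' hK hK') (box_mono le_rfl hV' hV hK' hK)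

/-- (LAB) a bounded partition which the point and all windows know is known to the box -/
theorem box_lab {β : ℕ → Type} {V' : ∀ k, (S.F k).Ω → β k} (hV : Bdd V) (hV' : Bdd V')
    (hK : s.IsKap c (Lab.ofZ fun k => Setoid.ker (V k))) (h0 : io V' ≤ s.Q.dg 1)
    (h1 : ∀ i, PLe (fun k => fc (Setoid.ker (V' k))) ((s.lf i).win c)) : io V' ≤ io V := by
  have h2 : PLe (fun k => fc (Setoid.ker (V' k))) (pcd s.Q) := by
    have h3 : cl hV'.toInf ≤ cl (s.Q.bdd 1).toInf := by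
      unfold VV.dg at h0
      rwa [io_eq hV', io_eq (s.Q.bdd 1)] at h0
    rw [← PLe_rpI] at h3
    exact h3
  have h4 : PLe (rpI hV'.toInf) (rpI hV.toInf) := kap_lab hK h2 h1
  rw [PLe_rpI] at h4
  rwa [io_eq hV, io_eq hV']

end

end Pool.Agent.Helper91.BOX
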