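import Pool.Agent.Helper33.LIT.Kap
import Pool.Agent.Helper26.MT.Zn
import Pool.Agent.Helper84.MT.Seg
import Pool.Agent.Helper3.LF.Mono

/-! LITERAL BOUNDED BOXES, part 1: rounding of the coefficients of a frame. The rounded frame is a frame of the
partition of the space into the cells (side `2 ^ (-n)`) of the vector of the coefficients. -/

set_option autoImplicit false

namespace Pool.Agent.Helper91.BOX

open Finset Filter Topology Pool.Agent.Helper69.RK Pool.Agent.Helper31.EC Pool.Agent.Helper31.EC.Sp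
open Pool.Agent.Helper40.EL Pool.Agent.Helper3.LF Pool.Agent.Helper84.MT Pool.Agent.Helper36.AM

noncomputable section

/-- number of coefficients of `M` polynomials of degree at most `D` in `M` variables -/
def nc (M D : ℕ) : ℕ := Fintype.card (Fin M × Mon M D)

/-- index of a coefficient -/
def ix (M D : ℕ) : Fin M × Mon M D ≃ Fin (nc M D) := Fintype.equivFin _

theorem exists_mon {M D : ℕ} (b : Fin M →₀ ℕ) (h : ∑ i, b i ≤ D) : ∃ a : Mon M D, a.ex = b := by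
  have h1 : ∀ i, b i ≤ D := fun i => (Finset.single_le_sum (f := fun i => b i) (fun _ _ => Nat.zero_le _)
    (Finset.mem_univ i)).trans h
  refine ⟨⟨fun i => ⟨b i, Nat.lt_succ_of_le (h1 i)⟩, h⟩, ?_⟩
  ext i
  rfl

theorem ex_inj {M D : ℕ} {a b : Mon M D} (h : a.ex = b.ex) : a = b := by
  apply Subtype.ext
  funext i
  have h1 := DFunLike.congr_fun h i
  rw [Mon.ex_apply, Mon.ex_apply] at h1
  exact Fin.ext h1

/-- the polynomials with the coefficients `d * v` -/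
def pof {M D : ℕ} (d : ℝ) (v : Fin (nc M D) → ℤ) (j : Fin M) : MvPolynomial (Fin M) ℝ :=
  ∑ a : Mon M D, MvPolynomial.monomial a.ex (d * (v (ix M D (j, a)) : ℝ))

theorem pof_coeff {M D : ℕ} (d : ℝ) (v : Fin (nc M D) → ℤ) (j : Fin M) (a : Mon M D) :
    (pof d v j).coeff a.ex = d * (v (ix M D (j, a)) : ℝ) := by
  classical
  unfold pof
  rw [MvPolynomial.coeff_sum, Finset.sum_eq_single a]
  · rw [MvPolynomial.coeff_monomial, if_pos rfl]
  · intro b _ hb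
    rw [MvPolynomial.coeff_monomial, if_neg]
    exact fun h => hb (ex_inj h)
  · intro h
    exact absurd (Finset.mem_univ a) h

theorem pof_coeff_not {M D : ℕ} (d : ℝ) (v : Fin (nc M D) → ℤ) (j : Fin M) (b : Fin M →₀ ℕ)
    (hb : ∀ a : Mon M D, a.ex ≠ b) : (pof d v j).coeff b = 0 := by
  classical
  unfold pof
  rw [MvPolynomial.coeff_sum]
  apply Finset.sum_eq_zero
  intro a _
  rw [MvPolynomial.coeff_monomial, if_neg (hb a)]

theorem pof_inj {M D : ℕ} {d : ℝ} (hd : d ≠ 0) {v v' : Fin (nc M D) → ℤ} (h : pof d v = pof d v') : v = v' := by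
  funext i
  have h1 := congrArg (fun p => MvPolynomial.coeff ((ix M D).symm i).2.ex p) (congrFun h ((ix M D).symm i).1)
  beta_reduce at h1
  rw [pof_coeff, pof_coeff, Prod.mk.eta, Equiv.apply_symm_apply] at h1
  exact_mod_cast mul_left_cancel₀ hd h1

theorem pof_deg {M D : ℕ} (d : ℝ) (v : Fin (nc M D) → ℤ) (j : Fin M) : (pof d v j).totalDegree ≤ D := by
  unfold pof
  refine MvPolynomial.totalDegree_finsetSum_le fun a _ => ?_
  exact (MvPolynomial.totalDegree_monomial_le _ _).trans a.ex_sum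

/-- the coefficients of the polynomials `P` -/
def cf {M : ℕ} (D : ℕ) (P : Fin M → MvPolynomial (Fin M) ℝ) (i : Fin (nc M D)) : ℝ :=
  (P ((ix M D).symm i).1).coeff ((ix M D).symm i).2.ex

theorem cf_ix {M D : ℕ} (P : Fin M → MvPolynomial (Fin M) ℝ) (j : Fin M) (a : Mon M D) :
    cf D P (ix M D (j, a)) = (P j).coeff a.ex := by
  unfold cf
  rw [Equiv.symm_apply_apply]

/-- the rounded coefficients -/
def rd {M : ℕ} (D : ℕ) (d : ℝ) (P : Fin M → MvPolynomial (Fin M) ℝ) (i : Fin (nc M D)) : ℤ := ⌊cf D P i / d⌋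

theorem rd_zero {M D : ℕ} {d : ℝ} {P : Fin M → MvPolynomial (Fin M) ℝ} {j : Fin M} {b : Fin M →₀ ℕ}
    (h : (P j).coeff b = 0) : (pof d (rd D d P) j).coeff b = 0 := by
  by_cases hb : ∃ a : Mon M D, a.ex = b
  · obtain ⟨a, rfl⟩ := hb
    rw [pof_coeff]
    unfold rd
    rw [cf_ix, h, zero_div, Int.floor_zero, Int.cast_zero, mul_zero]
  · push Not at hb
    exact pof_coeff_not _ _ _ _ hb

theorem rd_supp {M D : ℕ} {d : ℝ} {P : Fin M → MvPolynomial (Fin M) ℝ} {j : Fin M} {b : Fin M →₀ ℕ}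
    (h : b ∈ (pof d (rd D d P) j).support) : b ∈ (P j).support := by
  rw [MvPolynomial.mem_support_iff] at h ⊢
  exact fun h1 => h (rd_zero h1)

theorem rd_vars {M D : ℕ} {d : ℝ} {P : Fin M → MvPolynomial (Fin M) ℝ} {j i : Fin M}
    (h : i ∈ (pof d (rd D d P) j).vars) : i ∈ (P j).vars := by
  rw [MvPolynomial.mem_vars_iff_mem_support] at h ⊢
  obtain ⟨b, hb, hi⟩ := h
  exact ⟨b, rd_supp hb, hi⟩

theorem floor_close {d : ℝ} (p : 0 < d) (x : ℝ) : |d * (⌊x / d⌋ : ℤ) - x| ≤ d := by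
  have h1 := Int.floor_le (x / d)
  have h2 := Int.lt_floor_add_one (x / d)
  have e1 : x = d * (x / d) := by field_simp
  rw [abs_sub_comm, abs_le]
  constructor <;> nlinarith

/-- the rounding changes the coefficients by at most `d` -/
theorem rd_close {M D : ℕ} {d : ℝ} (hd : 0 < d) {P : Fin M → MvPolynomial (Fin M) ℝ} (j : Fin M)
    (hP : ∀ b ∈ (P j).support, ∑ i, b i ≤ D) (b : Fin M →₀ ℕ) :
    |(pof d (rd D d P) j - P j).coeff b| ≤ d := by
  rw [MvPolynomial.coeff_sub]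
  by_cases hb : ∃ a : Mon M D, a.ex = b
  · obtain ⟨a, rfl⟩ := hb
    rw [pof_coeff]
    unfold rd
    rw [cf_ix]
    exact floor_close hd _
  · push Not at hb
    have h1 : (P j).coeff b = 0 := by
      by_contra hc
      obtain ⟨a, ha⟩ := exists_mon b (hP b (MvPolynomial.mem_support_iff.mpr hc))
      exact hb a ha
    rw [pof_coeff_not _ _ _ _ hb, h1, sub_zero, abs_zero]
    exact hd.le

theorem deg_le_of {M D : ℕ} {p : MvPolynomial (Fin M) ℝ} (hP : ∀ b ∈ p.support, ∑ i, b i ≤ D) :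
    p.totalDegree ≤ D := by
  unfold MvPolynomial.totalDegree
  apply Finset.sup_le
  intro b hb
  rw [Finsupp.sum_fintype _ _ (fun _ => rfl)]
  exact hP b hb

/-- the rounding changes the values by a tame multiple of `d` -/
theorem rd_eval {M D : ℕ} {d : ℝ} (hd : 0 < d) {P : Fin M → MvPolynomial (Fin M) ℝ} (j : Fin M)
    (hP : ∀ b ∈ (P j).support, ∑ i, b i ≤ D) (R : ℝ) (hR : 1 ≤ R) (y : Fin M → ℝ) (hy : ∀ i, |y i| ≤ R) :
    |MvPolynomial.eval y (pof d (rd D d P) j) - MvPolynomial.eval y (P j)| ≤ ((D : ℝ) + 1) ^ M * (d * R ^ D) := by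
  rw [← map_sub]
  refine eval_le_of_coeff _ ?_ d R hd.le hR (rd_close hd j hP) y hy
  refine (MvPolynomial.totalDegree_sub _ _).trans (max_le (pof_deg _ _ _) (deg_le_of hP))

variable {S : Sp} {M : ℕ} {Q : S.VV M} {Z : ∀ k, Setoid (S.F k).Ω} {La : Fin M → ℝ}

/-- the vector of the coefficients of the frame -/
def cfv (f : Frm Q (Lab.ofZ Z) La) (D : ℕ) : S.VV (nc M D) where
  v := fun k ω => cf D (f.P k ω)
  bd := by
    obtain ⟨K, hK, h⟩ := f.bd
    refine ⟨K, hK, ?_⟩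
    filter_upwards [h] with k hk ω hω i
    exact hk ω hω _ _

/-- THE LITERAL BOX: the cells of the coefficients -/
def bx (f : Frm Q (Lab.ofZ Z) La) (D : ℕ) : ∀ k, (S.F k).Ω → (Fin (nc M D) → ℤ) := (cfv f D).cellv 1

theorem bx_bdd (f : Frm Q (Lab.ofZ Z) La) (D : ℕ) : Bdd (α := fun _ => Fin (nc M D) → ℤ) (bx f D) := VV.bdd _ _

theorem bx_rd (f : Frm Q (Lab.ofZ Z) La) (D k : ℕ) (ω : (S.F k).Ω) : bx f D k ω = rd D (S.dl 1 k) (f.P k ω) := rfl

theorem Sub_pow {K : ℕ → ℝ} (hK : S.Sub K) (n : ℕ) : S.Sub (fun k => K k ^ n) := by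
  induction n with
  | zero =>
    simp only [pow_zero]
    exact S.Sub_const zero_le_one
  | succ n ih =>
    simp only [pow_succ]
    exact ih.mul hK

/-- the rounded polynomials known to the box -/
def rP (f : Frm Q (Lab.ofZ Z) La) (D : ℕ) (k : ℕ) (ω : (S.F k).Ω) : Fin M → MvPolynomial (Fin M) ℝ :=
  pof (S.dl 1 k) (bx f D k ω)

theorem dl_le_one {r : ℝ} (h : 0 ≤ r) (k : ℕ) : S.dl r k ≤ 1 := by
  have h1 := S.dl_anti h k
  rwa [S.dl_zero] at h1

/-- the coordinates of the frame as variables of the space -/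
def fX (f : Frm Q (Lab.ofZ Z) La) : S.VV M := f.X

theorem fX_v (f : Frm Q (Lab.ofZ Z) La) (k : ℕ) (ω : (S.F k).Ω) (i : Fin M) : (fX f).v k ω i = f.X.v k ω i := rfl

/-- the polynomials of the frame as functions on the space -/
def fP (f : Frm Q (Lab.ofZ Z) La) (k : ℕ) (ω : (S.F k).Ω) : Fin M → MvPolynomial (Fin M) ℝ := f.P k ω

theorem fP_bd (f : Frm Q (Lab.ofZ Z) La) : ∃ K : ℕ → ℝ, S.Sub K ∧ ∀ᶠ k in UF, ∀ ω : (S.F k).Ω, (S.F k).μ ω ≠ 0 →
    ∀ j a, |(fP f k ω j).coeff a| ≤ K k := f.bd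

theorem fP_pt (f : Frm Q (Lab.ofZ Z) La) : ∃ K : ℕ → ℝ, S.Sub K ∧ ∀ᶠ k in UF, ∀ ω : (S.F k).Ω, (S.F k).μ ω ≠ 0 →
    ∀ j, |Q.v k ω j - (MvPolynomial.eval (fun i => S.dl (La i) k * (fX f).v k ω i) (fP f k ω j) +
      S.dl (La j) k * (fX f).v k ω j)| ≤ K k * S.dl 1 k := f.pt

theorem bx_rd' (f : Frm Q (Lab.ofZ Z) La) (D k : ℕ) (ω : (S.F k).Ω) :
    rP f D k ω = pof (S.dl 1 k) (rd D (S.dl 1 k) (fP f k ω)) := rfl

theorem rP_bd (f : Frm Q (Lab.ofZ Z) La) (D : ℕ)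
    (hD : ∀ k ω j, ∀ b ∈ (fP f k ω j).support, ∑ i, b i ≤ D) :
    ∃ K : ℕ → ℝ, S.Sub K ∧ ∀ᶠ k in UF, ∀ ω : (S.F k).Ω, (S.F k).μ ω ≠ 0 → ∀ j a, |(rP f D k ω j).coeff a| ≤ K k := by
  obtain ⟨K, hK, h⟩ := fP_bd f
  refine ⟨fun k => K k + 1, hK.add (S.Sub_const zero_le_one), ?_⟩
  filter_upwards [h] with k hk ω hω j a
  have h1 := hk ω hω j a
  have h2 := rd_close (S.dl_pos 1 k) j (hD k ω j) a
  have h3 := dl_le_one (S := S) zero_le_one k
  have h4 : (rP f D k ω j).coeff a = (pof (S.dl 1 k) (rd D (S.dl 1 k) (fP f k ω)) j - fP f k ω j).coeff a +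
      (fP f k ω j).coeff a := by
    rw [MvPolynomial.coeff_sub, sub_add_cancel, bx_rd']
  rw [h4]
  refine (abs_add_le _ _).trans ?_
  linarith

theorem rP_pt (f : Frm Q (Lab.ofZ Z) La) (D : ℕ) (hL : ∀ i, 0 ≤ La i)
    (hD : ∀ k ω j, ∀ b ∈ (fP f k ω j).support, ∑ i, b i ≤ D) :
    ∃ K : ℕ → ℝ, S.Sub K ∧ ∀ᶠ k in UF, ∀ ω : (S.F k).Ω, (S.F k).μ ω ≠ 0 →
      ∀ j, |Q.v k ω j - (MvPolynomial.eval (fun i => S.dl (La i) k * (fX f).v k ω i) (rP f D k ω j) +
        S.dl (La j) k * (fX f).v k ω j)| ≤ K k * S.dl 1 k := by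
  obtain ⟨K, hK, h⟩ := fP_pt f
  obtain ⟨L, hL2, h'⟩ := (fX f).bd
  refine ⟨fun k => K k + ((D : ℝ) + 1) ^ M * (L k + 1) ^ D, ?_, ?_⟩
  · exact hK.add ((S.Sub_const (by positivity)).mul (Sub_pow (hL2.add (S.Sub_const zero_le_one)) D))
  · filter_upwards [h, h', hL2.1] with k h1 h2 h3 ω hω j
    have e1 := h1 ω hω j
    have e2 := rd_eval (S.dl_pos 1 k) j (hD k ω j) (L k + 1) (by linarith)
      (fun i => S.dl (La i) k * (fX f).v k ω i) (fun i => by
        rw [abs_mul, abs_of_pos (S.dl_pos _ _)]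
        have h5 := h2 ω hω i
        have h6 := dl_le_one (S := S) (hL i) k
        have h7 : S.dl (La i) k * |(fX f).v k ω i| ≤ 1 * L k :=
          mul_le_mul h6 h5 (abs_nonneg _) zero_le_one
        linarith)
    rw [← bx_rd'] at e2
    have e3 : Q.v k ω j - (MvPolynomial.eval (fun i => S.dl (La i) k * (fX f).v k ω i) (rP f D k ω j) +
          S.dl (La j) k * (fX f).v k ω j) = (Q.v k ω j -
        (MvPolynomial.eval (fun i => S.dl (La i) k * (fX f).v k ω i) (fP f k ω j) +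
          S.dl (La j) k * (fX f).v k ω j)) - (MvPolynomial.eval (fun i => S.dl (La i) k * (fX f).v k ω i)
            (rP f D k ω j) - MvPolynomial.eval (fun i => S.dl (La i) k * (fX f).v k ω i) (fP f k ω j)) := by
      ring
    rw [e3]
    refine (abs_sub _ _).trans ?_
    have e4 : (K k + ((D : ℝ) + 1) ^ M * (L k + 1) ^ D) * S.dl 1 k =
      K k * S.dl 1 k + ((D : ℝ) + 1) ^ M * (S.dl 1 k * (L k + 1) ^ D) := by ring
    rw [e4]
    exact add_le_add e1 e2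

/-- THE ROUNDED FRAME -/
def rfr (f : Frm Q (Lab.ofZ Z) La) (D : ℕ) (hL : ∀ i, 0 ≤ La i)
    (hD : ∀ k ω j, ∀ b ∈ (fP f k ω j).support, ∑ i, b i ≤ D) :
    Frm Q (Lab.ofZ fun k => Setoid.ker (bx f D k)) La where
  X := f.X
  P := rP f D
  tri := fun k ω j i hi => f.tri k ω j i (rd_vars hi)
  red := fun k ω j a ha h0 => f.red k ω j a (rd_supp ha) h0
  fn := Eventually.of_forall fun k ω ω' _ _ _ h4 => by
    have h5 : bx f D k ω = bx f D k ω' := h4
    show pof (S.dl 1 k) (bx f D k ω) = pof (S.dl 1 k) (bx f D k ω')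
    rw [h5]
  bd := rP_bd f D hD
  pt := rP_pt f D hL hD

theorem rfr_P (f : Frm Q (Lab.ofZ Z) La) (D : ℕ) (hL : ∀ i, 0 ≤ La i)
    (hD : ∀ k ω j, ∀ b ∈ (fP f k ω j).support, ∑ i, b i ≤ D) (k : ℕ) (ω : (S.F k).Ω) :
    (rfr f D hL hD).P k ω = pof (S.dl 1 k) (bx f D k ω) := rfl

/-- the box is a function of the old one -/
theorem bx_le (f : Frm Q (Lab.ofZ Z) La) (D : ℕ) :
    ∀ᶠ k in UF, (fc (Setoid.ker (bx f D k)) : FL (S.F k)) ≤ fc (Z k) := by
  filter_upwards [f.fn] with k hk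
  apply fc_le
  intro ω ω' h1 h2 h3 h4
  show bx f D k ω = bx f D k ω'
  rw [bx_rd, bx_rd, hk ω ω' h1 h2 h3 h4]

theorem deg_of_red {D : ℕ} {c : ℝ} (hc : 0 < c) (hL : ∀ i, c ≤ La i) (hD : ∀ i, La i ≤ c * (D + 1))
    (f : Frm Q (Lab.ofZ Z) La) (k : ℕ) (ω : (S.F k).Ω) (j : Fin M) :
    ∀ b ∈ (fP f k ω j).support, ∑ i, b i ≤ D := by
  intro b hb
  by_cases h0 : b = 0
  · rw [h0]
    simp
  · have h1 := f.red k ω j b hb h0
    have h2 : ∑ i, (b i : ℝ) * c ≤ ∑ i, (b i : ℝ) * La i :=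
      Finset.sum_le_sum fun i _ => mul_le_mul_of_nonneg_left (hL i) (Nat.cast_nonneg _)
    rw [← Finset.sum_mul] at h2
    have h3 : (∑ i, (b i : ℝ)) * c < c * (D + 1) := lt_of_le_of_lt h2 (lt_of_lt_of_le h1 (hD j))
    rw [mul_comm] at h3
    have h4 := lt_of_mul_lt_mul_left h3 hc.le
    have h5 : ((∑ i, b i : ℕ) : ℝ) < ((D + 1 : ℕ) : ℝ) := by
      push_cast
      exact h4
    exact Nat.lt_succ_iff.mp (by exact_mod_cast h5)

end

end Pool.Agent.Helper91.BOX
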