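import Pool.Agent.Helper91.BOX.Num

/-! LITERAL BOUNDED BOXES, part 5: the closed range of windows for truncations of members of a homogeneous class. -/

set_option autoImplicit false

namespace Pool.Agent.Helper91.BOX

open Finset Filter Topology Pool.Agent.Helper69.RK Pool.Agent.Helper31.EC Pool.Agent.Helper31.EC.Sp
open Pool.Agent.Helper40.EL Pool.Agent.Helper3.LF Pool.Agent.Helper84.MT Pool.Agent.Helper36.AM
open Pool.Agent.Helper31.EC.QS
open Pool.Agent.Helper5.HB (cq)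
open Pool.Agent.Helper33.LIT
open Pool.Agent.Helper52.SL (untL)

noncomputable section

section

variable {S : Sp} {M : ℕ} {Cl : MCl (M + 1)} {g r : ℕ} {w : Fin (M + 1) → ℝ} {ρ : ℝ}
    {TT : ∀ S : Sp, MSys S (M + 1) (lin g) (Fin r) → Prop} {s : MSys S (M + 1) (lin g) (Fin r)} {c : ℝ}

/-- degree bound of the frames -/
def dgb (w : Fin (M + 1) → ℝ) : ℕ := ⌈w (Fin.last M)⌉₊

theorem hom_deg (hT : Hom M Cl g r w ρ TT) (hc : 0 < c) {Z : ∀ k, Setoid (S.F k).Ω}
    (f : Frm s.Q (Lab.ofZ Z) (fun j => w j * c)) :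
    ∀ k ω j, ∀ b ∈ (fP f k ω j).support, ∑ i, b i ≤ dgb w := by
  have hL : ∀ i, c ≤ w i * c := fun i => by
    have := mul_le_mul_of_nonneg_right (hom_one_le hT i) hc.le
    rwa [one_mul] at this
  have hD' : ∀ i, w i * c ≤ c * ((dgb w : ℕ) + 1) := fun i => by
    have e1 := Nat.le_ceil (w (Fin.last M))
    have e2 := hom_le_last hT i
    have e3 : w (Fin.last M) ≤ (dgb w : ℝ) := e1
    rw [mul_comm]
    apply mul_le_mul_of_nonneg_left _ hc.le
    linarith
  exact deg_of_red hc hL hD' f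

/-- THE ROUNDED BOX of a frame over a literal box with the right number, closed range of windows -/
theorem box_of_frm_num (hT : Hom M Cl g r w ρ TT) (hs : TT S s) (hc : 0 < c) (h1 : w (Fin.last M) * c ≤ 1)
    {Z : ∀ k, Setoid (S.F k).Ω} (f : Frm s.Q (Lab.ofZ Z) (fun j => w j * c)) (hZ : s.IsKap c (Lab.ofZ Z))
    (hv' : Tendsto (fun k => h (pcd s.Q k) (fc (Z k)) / (S.F k).n) UF (𝓝 (bnum w ρ c))) :
    s.IsKap c (Lab.ofZ fun k => Setoid.ker (bx f (dgb w) k)) := by
  have hL0 : ∀ i, 0 ≤ w i * c := fun i => mul_nonneg (zero_le_one.trans (hom_one_le hT i)) hc.le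
  have hL1 : ∀ i, w i * c ≤ 1 := fun i =>
    (mul_le_mul_of_nonneg_right (hom_le_last hT i) hc.le).trans h1
  have hD := hom_deg hT hc f
  have hcel : H (cel2L s.Q (Fin.last M) 1 (w (Fin.last M) * c)) = M + (1 - ρ) * (w (Fin.last M) * c) := by
    have h2 := num_pt hT hs (hL0 (Fin.last M)) (hL1 _) le_rfl
    rwa [mul_one] at h2
  have hcnt := h_box_last f (dgb w) hL0 hD hL1
  rw [H_pt hT hs, hcel] at hcnt
  have hcnt' : h (s.Q.dg 1) (io (α := fun _ => Fin (nc (M + 1) (dgb w)) → ℤ) (bx f (dgb w))) ≤ bnum w ρ c := by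
    refine hcnt.trans (le_of_eq ?_)
    unfold bnum
    ring
  exact (box_of_count hZ (bx_bdd f (dgb w)) (bx_le f _) hv' hcnt').1

/-- THE ROUNDED BOX of a frame -/
theorem box_of_frm (hT : Hom M Cl g r w ρ TT) (hs : TT S s) (hc : 0 < c) (h1 : w (Fin.last M) * c < 1)
    {Z : ∀ k, Setoid (S.F k).Ω} (f : Frm s.Q (Lab.ofZ Z) (fun j => w j * c)) (hZ : s.IsKap c (Lab.ofZ Z)) :
    s.IsKap c (Lab.ofZ fun k => Setoid.ker (bx f (dgb w) k)) := by
  have hv := hom_num_s hT hs hc.le h1 h1.le le_rfl le_rfl hZ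
  exact box_of_frm_num hT hs hc h1.le f hZ (hv.congr fun k => by rw [cel2_self])

end

/-! ### truncations -/

section

variable {S : Sp} {M : ℕ} {E : ℕ → ℕ} {ι : Type} {s : MSys S M E ι} {e : ℝ} {h0 : 0 < e} {h1 : e ≤ 1} {c : ℝ}
  {Z : ∀ k, Setoid (S.F k).Ω}

/-- labels of the truncation: a literal label `kappa_(e c)` which is known to the cells of level `e` of the point -/
theorem kap_trn (hZ : s.IsKap (e * c) (Lab.ofZ Z)) (hp : PLe (fun k => fc (Z k)) (pcr s.Q e)) :
    (s.trn e h0 h1).IsKap c (Lab.ofZ (S := S.chg S.tr e h0) Z) := by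
  rw [MSys.IsKap_trn_iff]
  have hm : (Lab.ofZ Z).IsMaxf (s.cndt e c) := by
    refine ⟨(Lab.ofZ_DMf Z).mpr fun i => ?_, fun l' hl' => ?_⟩
    · rcases i with _ | i
      · exact hp
      · exact kap_win hZ i
    · exact hZ.2 l' (Lab.DMf.mono hl' fun i => ⟨i, s.cndt_le h1 le_rfl i⟩)
  exact max_lit (l := Lab.ofZ Z) (l' := untL (Lab.ofZ (S := S.chg S.tr e h0) Z)) (Z := Z) (fun k => rfl)
    (fun k => rfl) hm

/-- the frame of the truncation -/
def frt {Q : S.VV M} {La : Fin M → ℝ} (f : Frm Q (Lab.ofZ Z) (fun j => e * La j)) (h0 : 0 < e) (h1 : e ≤ 1) :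
    Frm (Q.chg S.tr e h0) (Lab.ofZ (S := S.chg S.tr e h0) Z) La where
  X := (fX f).chg S.tr e h0
  P := f.P
  tri := f.tri
  red := fun k ω j a ha hz => by
    have h2 := f.red k ω j a ha hz
    have h3 : ∑ i, (a i : ℝ) * (e * La i) = e * ∑ i, (a i : ℝ) * La i := by
      rw [Finset.mul_sum]
      exact Finset.sum_congr rfl fun i _ => by ring
    rw [h3] at h2
    exact lt_of_mul_lt_mul_left h2 h0.le
  fn := by
    filter_upwards [f.fn] with k hk ω ω' a b c d
    exact hk ω ω' a b c.2 d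
  bd := by
    obtain ⟨K, hK, h⟩ := f.bd
    exact ⟨K, chg_sub S.tr e h0 hK, h⟩
  pt := by
    obtain ⟨K, hK, h⟩ := fP_pt f
    refine ⟨K, chg_sub S.tr e h0 hK, ?_⟩
    filter_upwards [h, hK.1] with k hk hK0 ω hω j
    have h2 := (hk ω hω j).trans (mul_le_mul_of_nonneg_left (S.dl_anti h1 k) hK0)
    have h3 : (S.chg S.tr e h0).dl 1 k = S.dl e k := by rw [chg_dl, mul_one]
    have h4 : (fun i => (S.chg S.tr e h0).dl (La i) k * (fX f).v k ω i) =
        fun i => S.dl (e * La i) k * (fX f).v k ω i := by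
      funext i
      rw [chg_dl]
    have h5 : (S.chg S.tr e h0).dl (La j) k = S.dl (e * La j) k := by rw [chg_dl]
    show |Q.v k ω j - (MvPolynomial.eval (fun i => (S.chg S.tr e h0).dl (La i) k * (fX f).v k ω i) (fP f k ω j) +
      (S.chg S.tr e h0).dl (La j) k * (fX f).v k ω j)| ≤ K k * (S.chg S.tr e h0).dl 1 k
    rw [h3, h4, h5]
    exact h2

end

section

variable {S : Sp} {M : ℕ} {Cl : MCl (M + 1)} {g r : ℕ} {w : Fin (M + 1) → ℝ} {ρ : ℝ}
    {TT : ∀ S : Sp, MSys S (M + 1) (lin g) (Fin r) → Prop} {s : MSys S (M + 1) (lin g) (Fin r)}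

theorem bx_frm0 {S : Sp} {M : ℕ} (Q : S.VV M) (La : Fin M → ℝ) (hLa : ∀ i, La i = 0) (D : ℕ) (k : ℕ)
    (ω : (S.F k).Ω) (i : Fin (nc M D)) : bx (frm0 Q La hLa) D k ω i = 0 := by
  rw [bx_rd]
  unfold rd cf
  have h1 : ((frm0 Q La hLa).P k ω ((ix M D).symm i).1) = 0 := rfl
  rw [h1, MvPolynomial.coeff_zero, zero_div, Int.floor_zero]

/-- the numbers of a literal box in the truncation -/
theorem num_trn {Z : ∀ k, Setoid (S.F k).Ω} {e v : ℝ} (h0 : 0 < e)
    (hv : Tendsto (fun k => h (cel2 s.Q (Fin.last M) e e k) (fc (Z k)) / (S.F k).n) UF (𝓝 (e * v))) :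
    Tendsto (fun k => h (pcd (s.Q.chg S.tr e h0) k) (fc (F := (S.chg S.tr e h0).F k) (Z k)) /
      ((S.chg S.tr e h0).F k).n) UF (𝓝 v) := by
  have h2 := hv.const_mul e⁻¹
  have e1 : e⁻¹ * (e * v) = v := by
    field_simp
  rw [e1] at h2
  refine h2.congr fun k => ?_
  have e2 : h (pcd (s.Q.chg S.tr e h0) k) (fc (F := (S.chg S.tr e h0).F k) (Z k)) =
      h (cel2 s.Q (Fin.last M) e e k) (fc (Z k)) := by
    have e3 : pcd (s.Q.chg S.tr e h0) k = fc (F := (S.chg S.tr e h0).F k) (Setoid.ker (s.Q.cellv e k)) := by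
      have e4 : (s.Q.chg S.tr e h0).cellv 1 k = s.Q.cellv e k :=
        (Pool.Agent.Helper52.SL.cellv_chg s.Q e h0 1 k).trans (by rw [mul_one])
      exact congrArg (fun f => fc (F := (S.chg S.tr e h0).F k) (Setoid.ker f)) e4
    rw [e3, cel2_same]
    exact h_chg_top e h0 (F := S.F k) (Setoid.ker (s.Q.cellv e k)) (Z k)
  rw [e2]
  show e⁻¹ * (h (cel2 s.Q (Fin.last M) e e k) (fc (Z k)) / (S.F k).n) =
    h (cel2 s.Q (Fin.last M) e e k) (fc (Z k)) / (e * (S.F k).n)
  have := (S.F k).pos.ne'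
  field_simp

/-- THE BOXES OF THE TRUNCATION of a member, closed range of windows -/
theorem exists_frames (hT : Hom M Cl g r w ρ TT) (hs : TT S s) {e : ℝ} (h0 : 0 < e) (h1 : e < 1) {c : ℝ} (hc : 0 ≤ c)
    (hc1 : w (Fin.last M) * c ≤ 1) : ∃ (Z : ∀ k, Setoid (((S.chg S.tr e h0)).F k).Ω)
      (f : Frm (s.trn e h0 h1.le).Q (Lab.ofZ (S := S.chg S.tr e h0) Z) (fun j => w j * c)),
      (s.trn e h0 h1.le).IsKap c (Lab.ofZ (S := S.chg S.tr e h0) fun k => Setoid.ker (bx f (dgb w) k)) ∧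
      (∀ k ω j, ∀ b ∈ (fP f k ω j).support, ∑ i, b i ≤ dgb w) ∧ (c = 0 → ∀ k ω, fP f k ω = 0) ∧
      io (S := S.chg S.tr e h0) (α := fun _ => Fin (nc (M + 1) (dgb w)) → ℤ) (bx f (dgb w)) ≤
        (s.trn e h0 h1.le).Q.dg (w (Fin.last M) * c) := by
  rcases hc.eq_or_lt with hcz | hcz
  · subst hcz
    refine ⟨fun _ => ⊤, frm0 _ _ (fun i => mul_zero _), ?_, ?_, fun _ k ω => rfl, ?_⟩
    · have e0 : (fun k => Setoid.ker (bx (frm0 (s.trn e h0 h1.le).Q (fun j => w j * 0) (fun i => mul_zero _))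
          (dgb w) k)) = fun _ => ⊤ := by
        funext k
        ext ω ω'
        refine ⟨fun _ => trivial, fun _ => ?_⟩
        show bx (frm0 (s.trn e h0 h1.le).Q (fun j => w j * 0) (fun i => mul_zero _)) (dgb w) k ω =
          bx (frm0 (s.trn e h0 h1.le).Q (fun j => w j * 0) (fun i => mul_zero _)) (dgb w) k ω'
        funext i
        rw [bx_frm0, bx_frm0]
      rw [e0]
      exact kap_top (hT.con _ _ (hT.trn S s hs e h0 h1.le))
    · intro k ω j b hb
      have e1 : fP (frm0 (s.trn e h0 h1.le).Q (fun j => w j * 0) (fun i => mul_zero _)) k ω j = 0 := rfl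
      rw [e1, MvPolynomial.support_zero] at hb
      exact absurd hb (Finset.notMem_empty b)
    · refine le_trans ?_ (_root_.bot_le)
      rw [io_eq (bx_bdd _ _), ← cl_bot, cl_le]
      apply Inf.le_of_le
      refine Eventually.of_forall fun k ω ω' _ => ?_
      show bx (frm0 (s.trn e h0 h1.le).Q (fun j => w j * 0) (fun i => mul_zero _)) (dgb w) k ω =
        bx (frm0 (s.trn e h0 h1.le).Q (fun j => w j * 0) (fun i => mul_zero _)) (dgb w) k ω'
      funext i
      rw [bx_frm0, bx_frm0]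
  · have hec : 0 < e * c := mul_pos h0 hcz
    have hw1 : w (Fin.last M) * (e * c) < 1 := by
      have h2 : w (Fin.last M) * (e * c) = e * (w (Fin.last M) * c) := by ring
      rw [h2]
      have h3 := mul_le_mul_of_nonneg_left hc1 h0.le
      linarith
    obtain ⟨Z, f, hZ, -⟩ := hom_lit hT hs hec hw1
    have e1 : (fun j => w j * (e * c)) = fun j => e * (w j * c) := by
      funext j
      ring
    have hV := box_of_frm hT hs hec hw1 f hZ
    have hwe : w (Fin.last M) * (e * c) ≤ e := by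
      have h2 : w (Fin.last M) * (e * c) = e * (w (Fin.last M) * c) := by ring
      rw [h2]
      have h3 := mul_le_mul_of_nonneg_left hc1 h0.le
      linarith
    have hcell := box_le_cell (e := e) hT hs (bx_bdd f (dgb w)) hV hec.le hw1 hwe h1.le
    have hcel2 := box_le_cell hT hs (bx_bdd f (dgb w)) hV hec.le hw1 le_rfl hw1.le
    have hnum : Tendsto (fun k => h (pcd (s.Q.chg S.tr e h0) k) (fc (F := (S.chg S.tr e h0).F k)
        (Setoid.ker (bx f (dgb w) k))) / ((S.chg S.tr e h0).F k).n) UF (𝓝 (bnum w ρ c)) := by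
      apply num_trn
      have h3 := hom_num_s hT hs hec.le hw1 hwe le_rfl h1.le hV
      have h4 : ∑ j : Fin M, (e - w j.castSucc * (e * c)) + (1 - ρ) * (e - w (Fin.last M) * (e * c)) =
          e * bnum w ρ c := by
        unfold bnum
        rw [mul_add, Finset.mul_sum]
        congr 1
        · exact Finset.sum_congr rfl fun j _ => by ring
        · ring
      rwa [h4] at h3
    have hpl : PLe (fun k => fc (Setoid.ker (bx f (dgb w) k))) (pcr s.Q e) := by
      have h3 : cl (bx_bdd f (dgb w)).toInf ≤ cl (s.Q.bdd e).toInf := by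
        unfold VV.dg at hcell
        rwa [io_eq (bx_bdd f (dgb w)), io_eq (s.Q.bdd e)] at hcell
      rw [← PLe_rpI] at h3
      exact h3
    have hD := hom_deg hT hec f
    have hL0 : ∀ i, 0 ≤ w i * (e * c) := fun i => mul_nonneg (zero_le_one.trans (hom_one_le hT i)) hec.le
    have key : ∀ (La' : Fin (M + 1) → ℝ) (_ : La' = fun j => e * (w j * c))
        (f' : Frm s.Q (Lab.ofZ fun k => Setoid.ker (bx f (dgb w) k)) La'),
        ∃ (f'' : Frm (s.trn e h0 h1.le).Q (Lab.ofZ (S := S.chg S.tr e h0) fun k => Setoid.ker (bx f (dgb w) k))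
          (fun j => w j * c)), True := by
      intro La' h2 f'
      subst h2
      exact ⟨frt f' h0 h1.le, trivial⟩
    obtain ⟨f'', -⟩ := key _ e1 (rfr f (dgb w) hL0 hD)
    have hZ' := kap_trn (h0 := h0) (h1 := h1.le) hV hpl
    have hB := box_of_frm_num hT (hT.trn S s hs e h0 h1.le) hcz hc1 f'' hZ' hnum
    refine ⟨_, f'', hB, hom_deg hT hcz f'', fun h => absurd h ?_, ?_⟩
    · linarith
    · have hb0 : Bdd (S := S.chg S.tr e h0) (α := fun _ => Fin (nc (M + 1) (dgb w)) → ℤ) (bx f (dgb w)) :=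
        chg_VB S.tr e h0 (bx_bdd f (dgb w))
      have h5 : io (S := S.chg S.tr e h0) (α := fun _ => Fin (nc (M + 1) (dgb w)) → ℤ) (bx f'' (dgb w)) =
          io (S := S.chg S.tr e h0) (α := fun _ => Fin (nc (M + 1) (dgb w)) → ℤ) (bx f (dgb w)) :=
        box_uniq (bx_bdd f'' (dgb w)) hb0 hB hZ'
      rw [h5, ← chgL_io S.tr e h0 (bx_bdd f (dgb w))]
      have h6 : (s.trn e h0 h1.le).Q.dg (w (Fin.last M) * c) = chgL S.tr e h0 (s.Q.dg (w (Fin.last M) * (e * c))) := by
        have h7 := s.Q.chg_dg S.tr e h0 (w (Fin.last M) * c)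
        have h8 : e * (w (Fin.last M) * c) = w (Fin.last M) * (e * c) := by ring
        rw [h8] at h7
        exact h7
      rw [h6]
      exact chgL_mono S.tr e h0 hcel2

end

end

end Pool.Agent.Helper91.BOX
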